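import Pool.Agent.H6.RP.NUA

/-! Project RP, part NB1: numerical values of the integrals against the Poisson kernel. -/

set_option autoImplicit false

open MeasureTheory Filter Topology Set

namespace Pool.Agent.H6.RP

open Pool.Agent.H10.RP

lemma mom0 {θ : ℝ} (h0 : 0 < θ) (h1 : θ < 1) : ∫ y, P1 θ y = θ := P1_mass h0 h1

lemma Gm0_zero {θ : ℝ} (h0 : 0 < θ) (h1 : θ < 1) : Gm θ 0 0 = θ := by
  rw [Gm_zero]; simp [P1_mass h0 h1]

lemma mom2 (hF : R_FWK) {θ : ℝ} (h0 : 0 < θ) (h1 : θ < 1) : ∫ y, P1 θ y * y ^ 2 = (θ - θ ^ 3) / 3 := by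
  have e := E3 hF h0 h1 0
  have g := Gm_two θ 0
  rw [Gm0_zero h0 h1] at e
  simp only [Real.sinh_zero, Real.cosh_zero, mul_zero, mul_one, zero_add, add_zero] at e
  simp only [zero_mul, Real.cos_zero, mul_one] at g
  linarith

lemma mom4 (hF : R_FWK) {θ : ℝ} (h0 : 0 < θ) (h1 : θ < 1) :
    ∫ y, P1 θ y * y ^ 4 = (3 * θ ^ 5 - 10 * θ ^ 3 + 7 * θ) / 15 := by
  have e := E5 hF h0 h1 0
  have g2 := Gm_two θ 0
  have g := Gm_four θ 0
  have m2 := mom2 hF h0 h1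
  rw [Gm0_zero h0 h1] at e
  simp only [Real.sinh_zero, Real.cosh_zero, mul_zero, mul_one, zero_add, add_zero] at e
  simp only [zero_mul, Real.cos_zero, mul_one] at g g2
  rw [← g]
  rw [m2] at g2
  rw [g2] at e
  linarith

lemma int_pow {θ : ℝ} (h0 : 0 < θ) (h1 : θ < 1) (n : ℕ) : Integrable (fun y => P1 θ y * y ^ n) := by
  have := int_cos h0 h1 n 0
  simpa using this

/-- Laplace transform of the cosine -/
lemma laplace (y : ℝ) : ∫ k in Ioi (0 : ℝ), Real.exp (-k) * Real.cos (k * y) = 1 / (1 + y ^ 2) := by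
  have hy : (1 + y ^ 2) ≠ 0 := by positivity
  have hd : ∀ k ∈ Ici (0 : ℝ), HasDerivAt
      (fun k => Real.exp (-k) * (y * Real.sin (k * y) - Real.cos (k * y)) / (1 + y ^ 2))
      (Real.exp (-k) * Real.cos (k * y)) k := by
    intro k _
    have a1 : HasDerivAt (fun k : ℝ => Real.exp (-k)) (-Real.exp (-k)) k := by
      have := (hasDerivAt_neg k).exp; simpa using this
    have a2 : HasDerivAt (fun k : ℝ => k * y) y k := by simpa using (hasDerivAt_id k).mul_const y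
    have a3 := ((a1.mul ((a2.sin.const_mul y).sub a2.cos))).div_const (1 + y ^ 2)
    refine a3.congr_deriv ?_
    simp only [Pi.sub_apply]
    field_simp
    ring
  have hbound : ∀ k : ℝ, |Real.exp (-k) * (y * Real.sin (k * y) - Real.cos (k * y)) / (1 + y ^ 2)| ≤
      Real.exp (-k) * ((|y| + 1) / (1 + y ^ 2)) := by
    intro k
    rw [abs_div, abs_mul, abs_of_pos (Real.exp_pos _), abs_of_pos (by positivity : 0 < 1 + y ^ 2), mul_div_assoc]
    apply mul_le_mul_of_nonneg_left _ (Real.exp_pos _).le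
    apply div_le_div_of_nonneg_right _ (by positivity)
    calc |y * Real.sin (k * y) - Real.cos (k * y)| ≤ |y * Real.sin (k * y)| + |Real.cos (k * y)| := abs_sub _ _
      _ ≤ |y| * 1 + 1 := by
        rw [abs_mul]
        exact add_le_add (mul_le_mul_of_nonneg_left (Real.abs_sin_le_one _) (abs_nonneg _))
          (Real.abs_cos_le_one _)
      _ = |y| + 1 := by ring
  have ht : Tendsto (fun k => Real.exp (-k) * (y * Real.sin (k * y) - Real.cos (k * y)) / (1 + y ^ 2)) atTop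
      (𝓝 0) := by
    rw [tendsto_zero_iff_abs_tendsto_zero]
    refine squeeze_zero (fun k => abs_nonneg _) hbound ?_
    have := (Real.tendsto_exp_neg_atTop_nhds_zero).mul_const ((|y| + 1) / (1 + y ^ 2))
    simpa using this
  have hi : IntegrableOn (fun k => Real.exp (-k) * Real.cos (k * y)) (Ioi 0) := by
    refine (integrableOn_exp_neg_Ioi 0).mono' (by fun_prop) (ae_of_all _ fun k => ?_)
    rw [norm_mul, Real.norm_of_nonneg (Real.exp_pos _).le]
    calc Real.exp (-k) * ‖Real.cos (k * y)‖ ≤ Real.exp (-k) * 1 :=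
          mul_le_mul_of_nonneg_left (Real.abs_cos_le_one _) (Real.exp_pos _).le
      _ = _ := mul_one _
  rw [integral_Ioi_of_hasDerivAt_of_tendsto' hd hi ht]
  simp
  field_simp

/-- `∫ P1 / (1 + y^2)` as a Laplace integral -/
lemma L_eq (hF : R_FWK) {θ : ℝ} (h0 : 0 < θ) (h1 : θ < 1) :
    ∫ y, P1 θ y * (1 / (1 + y ^ 2)) =
      ∫ k in Ioi (0 : ℝ), Real.exp (-k) * (Real.sinh (θ * k) / Real.sinh k) := by
  simp_rw [← laplace]
  have e1 : ∀ y : ℝ, P1 θ y * ∫ k in Ioi (0 : ℝ), Real.exp (-k) * Real.cos (k * y) =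
      ∫ k in Ioi (0 : ℝ), P1 θ y * (Real.exp (-k) * Real.cos (k * y)) := fun y =>
    (integral_const_mul _ _).symm
  simp_rw [e1]
  rw [integral_integral_swap]
  · refine setIntegral_congr_fun measurableSet_Ioi fun k hk => ?_
    have hk' : (0 : ℝ) < k := hk
    rw [← hF θ k h0 h1 hk'.ne', ← integral_const_mul]
    congr 1; funext y; ring
  · have hp : Integrable (fun z : ℝ × ℝ => P1 θ z.1 * Real.exp (-z.2)) (volume.prod (volume.restrict (Ioi 0))) :=
      (P1_int h0 h1).mul_prod (integrableOn_exp_neg_Ioi 0)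
    refine hp.mono' ?_ (ae_of_all _ fun z => ?_)
    · have : Continuous (Function.uncurry fun y k : ℝ => P1 θ y * (Real.exp (-k) * Real.cos (k * y))) := by
        have := P1_cont h0 h1
        unfold Function.uncurry
        fun_prop
      exact this.aestronglyMeasurable
    · simp only [Function.uncurry]
      rw [norm_mul, norm_mul, Real.norm_of_nonneg (P1_pos h0 h1 _).le, Real.norm_of_nonneg (Real.exp_pos _).le]
      apply mul_le_mul_of_nonneg_left _ (P1_pos h0 h1 _).le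
      calc Real.exp (-z.2) * ‖Real.cos (z.2 * z.1)‖ ≤ Real.exp (-z.2) * 1 :=
            mul_le_mul_of_nonneg_left (Real.abs_cos_le_one _) (Real.exp_pos _).le
        _ = _ := mul_one _

lemma sq3 : √3 * √3 = (3 : ℝ) := Real.mul_self_sqrt (by norm_num)

lemma dw (k : ℝ) : HasDerivAt (fun k : ℝ => Real.exp (-(k / 3))) (-(Real.exp (-(k / 3)) / 3)) k := by
  have h : HasDerivAt (fun k : ℝ => -(k / 3)) (-(1 / 3)) k := ((hasDerivAt_id k).div_const 3).neg
  refine h.exp.congr_deriv ?_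
  ring

lemma tw : Tendsto (fun k : ℝ => Real.exp (-(k / 3))) atTop (𝓝 0) := by
  have : Tendsto (fun k : ℝ => k / 3) atTop atTop := tendsto_id.atTop_div_const (by norm_num)
  exact Real.tendsto_exp_neg_atTop_nhds_zero.comp this

lemma exp_w (k : ℝ) : Real.exp (-k) = Real.exp (-(k / 3)) ^ 3 := by
  rw [← Real.exp_nat_mul]; congr 1; push_cast; ring

lemma ratio_third {k : ℝ} (hk : 0 < k) : Real.exp (-k) * (Real.sinh (1 / 3 * k) / Real.sinh k) =
    Real.exp (-(k / 3)) ^ 5 / (Real.exp (-(k / 3)) ^ 4 + Real.exp (-(k / 3)) ^ 2 + 1) := by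
  obtain ⟨a1, -, a3, -, -, -⟩ := hyp_w (k := k) (w := Real.exp (k / 3)) rfl
  have hw : Real.exp (k / 3) = (Real.exp (-(k / 3)))⁻¹ := by rw [Real.exp_neg, inv_inv]
  rw [a1, a3, exp_w, hw]
  have hpos := Real.exp_pos (-(k / 3))
  have hlt : Real.exp (-(k / 3)) < 1 := by
    rw [Real.exp_lt_one_iff]; linarith
  set w := Real.exp (-(k / 3)) with hwdef
  have hQ : w ^ 4 + w ^ 2 + 1 ≠ 0 := by positivity
  have h6 : (w⁻¹) ^ 3 - ((w⁻¹) ^ 3)⁻¹ = (1 - w ^ 2) * (w ^ 4 + w ^ 2 + 1) / w ^ 3 := by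
    field_simp; ring
  have h2 : w⁻¹ - (w⁻¹)⁻¹ = (1 - w ^ 2) / w := by field_simp
  have h1w : (1 - w ^ 2) ≠ 0 := by nlinarith
  rw [h6, h2]
  field_simp

lemma ratio_two_third {k : ℝ} (hk : 0 < k) : Real.exp (-k) * (Real.sinh (2 / 3 * k) / Real.sinh k) =
    Real.exp (-(k / 3)) ^ 4 * (Real.exp (-(k / 3)) ^ 2 + 1) /
      (Real.exp (-(k / 3)) ^ 4 + Real.exp (-(k / 3)) ^ 2 + 1) := by
  obtain ⟨a1, -, -, -, a3, -⟩ := hyp_w (k := k) (w := Real.exp (k / 3)) rfl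
  have hw : Real.exp (k / 3) = (Real.exp (-(k / 3)))⁻¹ := by rw [Real.exp_neg, inv_inv]
  rw [a1, a3, exp_w, hw]
  have hpos := Real.exp_pos (-(k / 3))
  have hlt : Real.exp (-(k / 3)) < 1 := by
    rw [Real.exp_lt_one_iff]; linarith
  set w := Real.exp (-(k / 3)) with hwdef
  have hQ : w ^ 4 + w ^ 2 + 1 ≠ 0 := by positivity
  have h6 : (w⁻¹) ^ 3 - ((w⁻¹) ^ 3)⁻¹ = (1 - w ^ 2) * (w ^ 4 + w ^ 2 + 1) / w ^ 3 := by
    field_simp; ring
  have h2 : (w⁻¹) ^ 2 - ((w⁻¹) ^ 2)⁻¹ = (1 - w ^ 2) * (1 + w ^ 2) / w ^ 2 := by field_simp; ring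
  have h1w : (1 - w ^ 2) ≠ 0 := by nlinarith
  rw [h6, h2]
  field_simp
  ring

lemma int_third : ∫ k in Ioi (0 : ℝ), Real.exp (-k) * (Real.sinh (1 / 3 * k) / Real.sinh k) =
    3 * (1 - Real.pi / (2 * √3)) := by
  have hs : (√3 : ℝ) ≠ 0 := by positivity
  have hs2 := sq3
  let Φ : ℝ → ℝ := fun k => -3 * (Real.exp (-(k / 3)) - (√3)⁻¹ *
    (Real.arctan ((2 * Real.exp (-(k / 3)) + 1) / √3) + Real.arctan ((2 * Real.exp (-(k / 3)) - 1) / √3)))
  have hd : ∀ k ∈ Ici (0 : ℝ), HasDerivAt Φ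
      (Real.exp (-(k / 3)) ^ 5 / (Real.exp (-(k / 3)) ^ 4 + Real.exp (-(k / 3)) ^ 2 + 1)) k := by
    intro k _
    have d := dw k
    have d1 := (((d.const_mul 2).add_const 1).div_const (√3)).arctan
    have d2 := (((d.const_mul 2).sub_const 1).div_const (√3)).arctan
    have d3 := (d.sub ((d1.add d2).const_mul (√3)⁻¹)).const_mul (-3)
    refine d3.congr_deriv ?_
    set w := Real.exp (-(k / 3)) with hw
    have hwp : 0 < w := Real.exp_pos _
    have q1 : w ^ 2 + w + 1 ≠ 0 := by positivity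
    have q2 : 0 < w ^ 2 - w + 1 := by nlinarith [sq_nonneg (w - 1 / 2)]
    have q3 : w ^ 4 + w ^ 2 + 1 ≠ 0 := by positivity
    have f1 : 1 + ((2 * w + 1) / √3) ^ 2 = 4 * (w ^ 2 + w + 1) / 3 := by
      rw [div_pow, sq (√3), hs2]; ring
    have f2 : 1 + ((2 * w - 1) / √3) ^ 2 = 4 * (w ^ 2 - w + 1) / 3 := by
      rw [div_pow, sq (√3), hs2]; ring
    rw [f1, f2]
    have q2' := q2.ne'
    have f3 : (√3)⁻¹ * (1 / (4 * (w ^ 2 + w + 1) / 3) * (2 * -(w / 3) / √3) +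
        1 / (4 * (w ^ 2 - w + 1) / 3) * (2 * -(w / 3) / √3)) =
        (1 / (√3 * √3)) * (-(w / 2) * (1 / (w ^ 2 + w + 1) + 1 / (w ^ 2 - w + 1))) := by
      field_simp
      ring
    have f4 : 1 / (w ^ 2 + w + 1) + 1 / (w ^ 2 - w + 1) = 2 * (w ^ 2 + 1) / (w ^ 4 + w ^ 2 + 1) := by
      rw [div_add_div _ _ q1 q2', div_eq_div_iff (mul_ne_zero q1 q2') q3]
      ring
    rw [f3, f4, hs2]
    field_simp
    ring
  have ht : Tendsto Φ atTop (𝓝 (-3 * (0 - (√3)⁻¹ * (Real.arctan ((2 * 0 + 1) / √3) +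
      Real.arctan ((2 * 0 - 1) / √3))))) := by
    refine (tw.sub (Tendsto.const_mul _ (Tendsto.add ?_ ?_))).const_mul _
    · exact (Real.continuous_arctan.tendsto _).comp (((tw.const_mul 2).add_const 1).div_const _)
    · exact (Real.continuous_arctan.tendsto _).comp (((tw.const_mul 2).sub_const 1).div_const _)
  have hval := integral_Ioi_of_hasDerivAt_of_nonneg' hd (fun k _ => by positivity) ht
  rw [setIntegral_congr_fun measurableSet_Ioi (fun k hk => ratio_third hk), hval]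
  have e1 : Real.arctan ((2 * 0 + 1) / √3) + Real.arctan ((2 * 0 - 1) / √3) = 0 := by
    have : ((2 * 0 - 1) / √3 : ℝ) = -((2 * 0 + 1) / √3) := by ring
    rw [this, Real.arctan_neg]; ring
  have e2 : Φ 0 = -3 * (1 - (√3)⁻¹ * (Real.pi / 2)) := by
    show -3 * (Real.exp (-(0 / 3)) - (√3)⁻¹ *
      (Real.arctan ((2 * Real.exp (-(0 / 3)) + 1) / √3) + Real.arctan ((2 * Real.exp (-(0 / 3)) - 1) / √3))) = _
    have a1 : Real.exp (-(0 / 3)) = 1 := by simp
    have a2 : ((2 * 1 + 1) / √3 : ℝ) = √3 := by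
      rw [div_eq_iff hs, hs2]; norm_num
    have a3 : ((2 * 1 - 1) / √3 : ℝ) = (√3)⁻¹ := by
      rw [div_eq_mul_inv]; norm_num
    rw [a1, a2, a3, Real.arctan_sqrt_three, Real.arctan_inv_sqrt_three]
    ring
  rw [e1, e2]
  field_simp
  ring

lemma int_two_third : ∫ k in Ioi (0 : ℝ), Real.exp (-k) * (Real.sinh (2 / 3 * k) / Real.sinh k) =
    3 / 2 * (1 - Real.pi / (3 * √3)) := by
  have hs : (√3 : ℝ) ≠ 0 := by positivity
  have hs2 := sq3
  let Φ : ℝ → ℝ := fun k => -(3 / 2) * (Real.exp (-(k / 3)) ^ 2 - 2 * (√3)⁻¹ *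
    Real.arctan ((2 * Real.exp (-(k / 3)) ^ 2 + 1) / √3))
  have hd : ∀ k ∈ Ici (0 : ℝ), HasDerivAt Φ
      (Real.exp (-(k / 3)) ^ 4 * (Real.exp (-(k / 3)) ^ 2 + 1) /
        (Real.exp (-(k / 3)) ^ 4 + Real.exp (-(k / 3)) ^ 2 + 1)) k := by
    intro k _
    have d := (dw k).pow 2
    have d1 := (((d.const_mul 2).add_const 1).div_const (√3)).arctan
    have d3 := (d.sub (d1.const_mul (2 * (√3)⁻¹))).const_mul (-(3 / 2))
    refine d3.congr_deriv ?_
    simp only [Pi.pow_apply]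
    set w := Real.exp (-(k / 3)) with hw
    have hwp : 0 < w := Real.exp_pos _
    have q3 : w ^ 4 + w ^ 2 + 1 ≠ 0 := by positivity
    have f1 : 1 + ((2 * w ^ 2 + 1) / √3) ^ 2 = 4 * (w ^ 4 + w ^ 2 + 1) / 3 := by
      rw [div_pow, sq (√3), hs2]; ring
    rw [f1]
    have f3 : 2 * (√3)⁻¹ * (1 / (4 * (w ^ 4 + w ^ 2 + 1) / 3) *
        (2 * (((2 : ℕ) : ℝ) * w ^ (2 - 1) * -(w / 3)) / √3)) =
        (1 / (√3 * √3)) * (-(2 * w ^ 2) / (w ^ 4 + w ^ 2 + 1)) := by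
      field_simp
      push_cast
      ring
    rw [f3, hs2]
    push_cast
    field_simp
    ring
  have ht : Tendsto Φ atTop (𝓝 (-(3 / 2) * (0 ^ 2 - 2 * (√3)⁻¹ * Real.arctan ((2 * 0 ^ 2 + 1) / √3)))) := by
    refine ((tw.pow 2).sub (Tendsto.const_mul _ ?_)).const_mul _
    exact (Real.continuous_arctan.tendsto _).comp ((((tw.pow 2).const_mul 2).add_const 1).div_const _)
  have hval := integral_Ioi_of_hasDerivAt_of_nonneg' hd (fun k _ => by positivity) ht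
  rw [setIntegral_congr_fun measurableSet_Ioi (fun k hk => ratio_two_third hk), hval]
  have e1 : Real.arctan ((2 * 0 ^ 2 + 1) / √3) = Real.pi / 6 := by
    have a3 : ((2 * 0 ^ 2 + 1) / √3 : ℝ) = (√3)⁻¹ := by
      rw [div_eq_mul_inv]; norm_num
    rw [a3, Real.arctan_inv_sqrt_three]
  have e2 : Φ 0 = -(3 / 2) * (1 - 2 * (√3)⁻¹ * (Real.pi / 3)) := by
    show -(3 / 2) * (Real.exp (-(0 / 3)) ^ 2 - 2 * (√3)⁻¹ *
      Real.arctan ((2 * Real.exp (-(0 / 3)) ^ 2 + 1) / √3)) = _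
    have a1 : Real.exp (-(0 / 3)) = 1 := by simp
    have a2 : ((2 * 1 ^ 2 + 1) / √3 : ℝ) = √3 := by
      rw [div_eq_iff hs, hs2]; norm_num
    rw [a1, a2, Real.arctan_sqrt_three]
    ring
  rw [e1, e2]
  field_simp
  ring

/-- the common form of the first two integrals -/
lemma first_two (hF : R_FWK) {θ : ℝ} (h0 : 0 < θ) (h1 : θ < 1) :
    ∫ y : ℝ, P1 θ y / θ * (1 + y ^ 2) * ((1 + y ^ 2 / 9) / (1 + y ^ 2)) ^ 2 =
      1 / (81 * θ) * (17 * θ + (θ - θ ^ 3) / 3 + 64 *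
        ∫ k in Ioi (0 : ℝ), Real.exp (-k) * (Real.sinh (θ * k) / Real.sinh k)) := by
  have e : ∀ y : ℝ, P1 θ y / θ * (1 + y ^ 2) * ((1 + y ^ 2 / 9) / (1 + y ^ 2)) ^ 2 =
      1 / (81 * θ) * (17 * P1 θ y + P1 θ y * y ^ 2 + 64 * (P1 θ y * (1 / (1 + y ^ 2)))) := by
    intro y
    have : 1 + y ^ 2 ≠ 0 := by positivity
    field_simp
    ring
  have i0 := P1_int h0 h1
  have i2 := int_pow h0 h1 2
  have iL : Integrable (fun y => P1 θ y * (1 / (1 + y ^ 2))) := by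
    refine i0.mono' (((P1_cont h0 h1).mul ?_).aestronglyMeasurable) (ae_of_all _ fun y => ?_)
    · refine continuous_const.div (by fun_prop) fun y => by positivity
    · rw [norm_mul, Real.norm_of_nonneg (P1_pos h0 h1 y).le, Real.norm_of_nonneg (by positivity)]
      calc P1 θ y * (1 / (1 + y ^ 2)) ≤ P1 θ y * 1 := by
            apply mul_le_mul_of_nonneg_left _ (P1_pos h0 h1 y).le
            rw [div_le_one (by positivity)]
            nlinarith [sq_nonneg y]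
        _ = _ := mul_one _
  have i3 : Integrable (fun y => 17 * P1 θ y + P1 θ y * y ^ 2) := (i0.const_mul 17).add i2
  simp_rw [e]
  rw [integral_const_mul, integral_add i3 (iL.const_mul 64), integral_add (i0.const_mul 17) i2,
    integral_const_mul, integral_const_mul, mom0 h0 h1, mom2 hF h0 h1, L_eq hF h0 h1]

lemma sqrt3_lt : √3 < (1.7320509 : ℝ) := by
  rw [Real.sqrt_lt' (by norm_num)]; norm_num

lemma pi_div : (1.81379 : ℝ) < Real.pi / √3 := by
  have h1 := Real.pi_gt_d6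
  have h2 := sqrt3_lt
  have h3 : 0 < √3 := by positivity
  rw [lt_div_iff₀ h3]
  nlinarith

lemma poly_bd {x : ℝ} (hx : 0 ≤ x) : ((1 + x / 100) / (1 + x / 4)) ^ 3 ≤ 1 - 3 / 5 * x + 3 / 20 * x ^ 2 := by
  rw [div_pow, div_le_iff₀ (by positivity)]
  have h : 0 ≤ 0.12 - 0.1128 * x + 0.015624 * x ^ 2 + 0.01875 * x ^ 3 + 0.00234375 * x ^ 4 := by
    rcases le_total x 1 with h1 | h1
    · have : 0 ≤ 0.015624 * x ^ 2 + 0.01875 * x ^ 3 + 0.00234375 * x ^ 4 := by positivity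
      nlinarith
    · nlinarith [mul_nonneg hx (sq_nonneg (x - 1)), sq_nonneg (x - 1), pow_nonneg hx 4]
  have h2 : (1 - 3 / 5 * x + 3 / 20 * x ^ 2) * (1 + x / 4) ^ 3 - (1 + x / 100) ^ 3 =
      x * (0.12 - 0.1128 * x + 0.015624 * x ^ 2 + 0.01875 * x ^ 3 + 0.00234375 * x ^ 4) := by
    ring
  nlinarith [mul_nonneg hx h]

/-- part NB1 -/
theorem nb1 (hF : R_FWK) : R_NB1 := by
  have hp := pi_div
  refine ⟨?_, ?_, ?_⟩
  · rw [first_two hF (by norm_num) (by norm_num), int_third]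
    have e : Real.pi / (2 * √3) = (Real.pi / √3) / 2 := by field_simp
    rw [e]
    norm_num
    nlinarith
  · rw [first_two hF (by norm_num) (by norm_num), int_two_third]
    have e : Real.pi / (3 * √3) = (Real.pi / √3) / 3 := by field_simp
    rw [e]
    norm_num
    nlinarith
  · have h0 : (0 : ℝ) < 1 / 2 := by norm_num
    have h1 : (1 : ℝ) / 2 < 1 := by norm_num
    have i0 := P1_int h0 h1
    have i2 := int_pow h0 h1 2
    have i4 := int_pow h0 h1 4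
    have iR : Integrable (fun y : ℝ => 2 * P1 (1 / 2) y + (-6 / 5) * (P1 (1 / 2) y * y ^ 2) +
        3 / 10 * (P1 (1 / 2) y * y ^ 4)) :=
      ((i0.const_mul 2).add (i2.const_mul (-6 / 5))).add (i4.const_mul (3 / 10))
    have iR1 : Integrable (fun y : ℝ => 2 * P1 (1 / 2) y + (-6 / 5) * (P1 (1 / 2) y * y ^ 2)) :=
      (i0.const_mul 2).add (i2.const_mul (-6 / 5))
    have hle : ∀ y : ℝ, P1 (1 / 2) y / (1 / 2) * ((1 + y ^ 2 / 100) / (1 + y ^ 2 / 4)) ^ 3 ≤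
        2 * P1 (1 / 2) y + (-6 / 5) * (P1 (1 / 2) y * y ^ 2) + 3 / 10 * (P1 (1 / 2) y * y ^ 4) := by
      intro y
      have hP := (P1_pos h0 h1 y).le
      have := mul_le_mul_of_nonneg_left (poly_bd (sq_nonneg y)) (by positivity : 0 ≤ P1 (1 / 2) y / (1 / 2))
      refine this.trans (le_of_eq ?_)
      ring
    have hnn : ∀ y : ℝ, 0 ≤ P1 (1 / 2) y / (1 / 2) * ((1 + y ^ 2 / 100) / (1 + y ^ 2 / 4)) ^ 3 := by
      intro y
      have hP := (P1_pos h0 h1 y).le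
      positivity
    calc ∫ y : ℝ, P1 (1 / 2) y / (1 / 2) * ((1 + y ^ 2 / 100) / (1 + y ^ 2 / 4)) ^ 3
        ≤ ∫ y : ℝ, (2 * P1 (1 / 2) y + (-6 / 5) * (P1 (1 / 2) y * y ^ 2) + 3 / 10 * (P1 (1 / 2) y * y ^ 4)) :=
          integral_mono_of_nonneg (ae_of_all _ hnn) iR (ae_of_all _ hle)
      _ = 2 * (1 / 2) + (-6 / 5) * (((1 : ℝ) / 2 - (1 / 2) ^ 3) / 3) +
          3 / 10 * ((3 * (1 / 2 : ℝ) ^ 5 - 10 * (1 / 2) ^ 3 + 7 * (1 / 2)) / 15) := by
          rw [integral_add iR1 (i4.const_mul (3 / 10)), integral_add (i0.const_mul 2) (i2.const_mul (-6 / 5)),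
            integral_const_mul, integral_const_mul, integral_const_mul, mom0 h0 h1, mom2 hF h0 h1,
            mom4 hF h0 h1]
      _ ≤ 0.9 := by norm_num

end Pool.Agent.H6.RP
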