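import Pool.Agent.H6.RP.GGL

/-! Project RP, part CHI: bounds for the quotients of Gamma functions. -/

set_option autoImplicit false

open MeasureTheory Filter Topology Set
open scoped ComplexConjugate

namespace Pool.Agent.H6.RP

open Pool.Agent.H10.RP Pool.Agent.N892.BW

/-- `|B(s, u)| ≤ B(Re s, u)` in the form of a real integral -/
lemma norm_beta_le {s : ℂ} {u : ℝ} (hs : 0 < s.re) (hu : 0 < u) :
    ‖Complex.betaIntegral s u‖ ≤ ‖Complex.betaIntegral (s.re : ℂ) u‖ := by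
  have key : ∀ t : ℂ, t.re = s.re → ∀ x ∈ Ioc (0 : ℝ) 1, x ≠ 1 →
      ‖(x : ℂ) ^ (t - 1) * (1 - (x : ℂ)) ^ ((u : ℂ) - 1)‖ = x ^ (s.re - 1) * (1 - x) ^ (u - 1) := by
    intro t ht x hx hx1
    have h1 : 0 < 1 - x := by
      have := lt_of_le_of_ne hx.2 hx1; linarith
    have e1 : (1 - (x : ℂ)) = ((1 - x : ℝ) : ℂ) := by push_cast; ring
    rw [norm_mul, e1, Complex.norm_cpow_eq_rpow_re_of_pos hx.1, Complex.norm_cpow_eq_rpow_re_of_pos h1]
    simp [ht]
  have hae : ∀ᵐ x : ℝ ∂(volume.restrict (Ioc (0:ℝ) 1)), x ∈ Ioc (0:ℝ) 1 ∧ x ≠ 1 := by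
    have h1 : ∀ᵐ x : ℝ ∂(volume.restrict (Ioc (0:ℝ) 1)), x ∈ Ioc (0:ℝ) 1 := ae_restrict_mem measurableSet_Ioc
    have h2 : ∀ᵐ x : ℝ ∂(volume.restrict (Ioc (0:ℝ) 1)), x ≠ 1 :=
      ae_restrict_of_ae (by simp [ae_iff])
    filter_upwards [h1, h2] with x a b using ⟨a, b⟩
  unfold Complex.betaIntegral
  rw [intervalIntegral.integral_of_le zero_le_one, intervalIntegral.integral_of_le zero_le_one]
  have hR : ∫ x in Ioc (0:ℝ) 1, (x : ℂ) ^ ((s.re : ℂ) - 1) * (1 - (x : ℂ)) ^ ((u : ℂ) - 1) =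
      ((∫ x in Ioc (0:ℝ) 1, x ^ (s.re - 1) * (1 - x) ^ (u - 1) : ℝ) : ℂ) := by
    rw [← integral_complex_ofReal]
    refine integral_congr_ae ?_
    filter_upwards [hae] with x hx
    have h1 : 0 < 1 - x := by
      have := lt_of_le_of_ne hx.1.2 hx.2; linarith
    have e1 : (1 - (x : ℂ)) = ((1 - x : ℝ) : ℂ) := by push_cast; ring
    rw [e1, Complex.ofReal_mul, Complex.ofReal_cpow hx.1.1.le, Complex.ofReal_cpow h1.le]
    push_cast; rfl
  rw [hR, Complex.norm_real]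
  have hnn : 0 ≤ ∫ x in Ioc (0:ℝ) 1, x ^ (s.re - 1) * (1 - x) ^ (u - 1) := by
    refine setIntegral_nonneg measurableSet_Ioc fun x hx => ?_
    exact mul_nonneg (Real.rpow_nonneg hx.1.le _) (Real.rpow_nonneg (by linarith [hx.2]) _)
  rw [Real.norm_of_nonneg hnn]
  refine (norm_integral_le_integral_norm _).trans (le_of_eq ?_)
  refine integral_congr_ae ?_
  filter_upwards [hae] with x hx
  exact key s rfl x hx.1 hx.2

lemma Gamma_ratio {a b : ℝ} (ha : 0 < a) (hab : a < b) (t : ℝ) :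
    ‖Complex.Gamma (a + t * Complex.I)‖ * Real.Gamma b ≤ ‖Complex.Gamma (b + t * Complex.I)‖ * Real.Gamma a := by
  have hu : 0 < b - a := by linarith
  have hs : 0 < ((a : ℂ) + t * Complex.I).re := by simpa using ha
  have hre : ((a : ℂ) + t * Complex.I).re = a := by simp
  have e1 := Complex.Gamma_mul_Gamma_eq_betaIntegral (s := (a : ℂ) + t * Complex.I) (t := ((b - a : ℝ) : ℂ)) hs
    (by simpa using hu)
  have e2 := Complex.Gamma_mul_Gamma_eq_betaIntegral (s := (a : ℂ)) (t := ((b - a : ℝ) : ℂ))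
    (by simpa using ha) (by simpa using hu)
  have e3 : (a : ℂ) + t * Complex.I + ((b - a : ℝ) : ℂ) = b + t * Complex.I := by push_cast; ring
  have e4 : (a : ℂ) + ((b - a : ℝ) : ℂ) = b := by push_cast; ring
  rw [e3] at e1
  rw [e4] at e2
  have hB := norm_beta_le hs hu
  rw [hre] at hB
  have n1 := congrArg norm e1
  have n2 := congrArg norm e2
  rw [norm_mul, norm_mul] at n1 n2
  rw [Complex.Gamma_ofReal, Complex.Gamma_ofReal, Complex.Gamma_ofReal, Complex.norm_real, Complex.norm_real,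
    Complex.norm_real, Real.norm_of_nonneg (Real.Gamma_pos_of_pos ha).le,
    Real.norm_of_nonneg (Real.Gamma_pos_of_pos hu).le,
    Real.norm_of_nonneg (Real.Gamma_pos_of_pos (ha.trans hab)).le] at n2
  rw [Complex.Gamma_ofReal, Complex.norm_real, Real.norm_of_nonneg (Real.Gamma_pos_of_pos hu).le] at n1
  have hg : 0 < Real.Gamma (b - a) := Real.Gamma_pos_of_pos hu
  have hb : 0 < Real.Gamma b := Real.Gamma_pos_of_pos (ha.trans hab)
  refine le_of_mul_le_mul_right ?_ hg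
  calc ‖Complex.Gamma (a + t * Complex.I)‖ * Real.Gamma b * Real.Gamma (b - a)
      = (‖Complex.Gamma (a + t * Complex.I)‖ * Real.Gamma (b - a)) * Real.Gamma b := by ring
    _ = ‖Complex.Gamma (b + t * Complex.I)‖ * ‖Complex.betaIntegral (a + t * Complex.I) ((b - a : ℝ) : ℂ)‖ *
        Real.Gamma b := by rw [n1]
    _ ≤ ‖Complex.Gamma (b + t * Complex.I)‖ * ‖Complex.betaIntegral (a : ℂ) ((b - a : ℝ) : ℂ)‖ *
        Real.Gamma b := by gcongr
    _ = ‖Complex.Gamma (b + t * Complex.I)‖ * (Real.Gamma b * ‖Complex.betaIntegral (a : ℂ) ((b - a : ℝ) : ℂ)‖) := by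
        ring
    _ = ‖Complex.Gamma (b + t * Complex.I)‖ * Real.Gamma a * Real.Gamma (b - a) := by rw [← n2]; ring

/-- the common step: `c = 1/(2m)` -/
lemma gm_bound {c : ℝ} (hc : 0 < c) (hc2 : c < 1 / 2) (y : ℝ) :
    ‖gm (2 * c + Complex.I * (2 * c * y))‖ ^ 2 ≤ (Real.Gamma c / Real.Gamma (1 - c)) ^ 2 *
      ((1 + y ^ 2 / ((1 - c) / c) ^ 2) / (1 + y ^ 2)) := by
  have e1 : ((2 * c + Complex.I * (2 * c * y)) / 2 : ℂ) = c + ((c * y : ℝ) : ℂ) * Complex.I := by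
    push_cast; ring
  have e2 : (1 - (2 * c + Complex.I * (2 * c * y)) / 2 : ℂ) = conj (((1 - c : ℝ) : ℂ) + ((c * y : ℝ) : ℂ) * Complex.I) := by
    rw [Complex.ext_iff]; constructor
    · simp
    · simp; ring
  unfold gm
  rw [e2, e1, Complex.Gamma_conj, norm_div, Complex.norm_conj]
  have hc1 : 0 < 1 - c := by linarith
  have hA : (c : ℂ) + ((c * y : ℝ) : ℂ) * Complex.I ≠ 0 := by
    intro h; have := congrArg Complex.re h; simp at this; linarith
  have hB : ((1 - c : ℝ) : ℂ) + ((c * y : ℝ) : ℂ) * Complex.I ≠ 0 := by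
    intro h; have := congrArg Complex.re h; simp at this; linarith
  have gA := Complex.Gamma_add_one _ hA
  have gB := Complex.Gamma_add_one _ hB
  have r := Gamma_ratio (a := c + 1) (b := 1 - c + 1) (by linarith) (by linarith) (c * y)
  have eA : (((c + 1 : ℝ) : ℂ) + ((c * y : ℝ) : ℂ) * Complex.I) = (c : ℂ) + ((c * y : ℝ) : ℂ) * Complex.I + 1 := by
    push_cast; ring
  have eB : (((1 - c + 1 : ℝ) : ℂ) + ((c * y : ℝ) : ℂ) * Complex.I) =
      ((1 - c : ℝ) : ℂ) + ((c * y : ℝ) : ℂ) * Complex.I + 1 := by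
    push_cast; ring
  rw [eA, eB, gA, gB, norm_mul, norm_mul, Real.Gamma_add_one hc.ne', Real.Gamma_add_one hc1.ne'] at r
  set GA1 := ‖Complex.Gamma ((c : ℂ) + ((c * y : ℝ) : ℂ) * Complex.I)‖
  set GB1 := ‖Complex.Gamma (((1 - c : ℝ) : ℂ) + ((c * y : ℝ) : ℂ) * Complex.I)‖ with hGB1
  have hGB : 0 < GB1 := by
    rw [hGB1, norm_pos_iff]
    apply Complex.Gamma_ne_zero_of_re_pos
    simpa using hc1
  have nA : ‖(c : ℂ) + ((c * y : ℝ) : ℂ) * Complex.I‖ ^ 2 = c ^ 2 * (1 + y ^ 2) := by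
    rw [← Complex.normSq_eq_norm_sq, Complex.normSq_apply]; simp; ring
  have nB : ‖((1 - c : ℝ) : ℂ) + ((c * y : ℝ) : ℂ) * Complex.I‖ ^ 2 = (1 - c) ^ 2 + c ^ 2 * y ^ 2 := by
    rw [← Complex.normSq_eq_norm_sq, Complex.normSq_apply]; simp; ring
  have hgc : 0 < Real.Gamma c := Real.Gamma_pos_of_pos hc
  have hg1 : 0 < Real.Gamma (1 - c) := Real.Gamma_pos_of_pos hc1
  have r2 := pow_le_pow_left₀ (by positivity) r 2
  have r3 : (c ^ 2 * (1 + y ^ 2)) * GA1 ^ 2 * ((1 - c) ^ 2 * Real.Gamma (1 - c) ^ 2) ≤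
      ((1 - c) ^ 2 + c ^ 2 * y ^ 2) * GB1 ^ 2 * (c ^ 2 * Real.Gamma c ^ 2) := by
    rw [← nA, ← nB]
    calc _ = (‖(c : ℂ) + ((c * y : ℝ) : ℂ) * Complex.I‖ * GA1 * ((1 - c) * Real.Gamma (1 - c))) ^ 2 := by ring
      _ ≤ _ := r2
      _ = _ := by ring
  have hy : 0 < 1 + y ^ 2 := by positivity
  have hc2' : 0 < c ^ 2 := by positivity
  have e5 : (Real.Gamma c / Real.Gamma (1 - c)) ^ 2 * ((1 + y ^ 2 / ((1 - c) / c) ^ 2) / (1 + y ^ 2)) =
      (((1 - c) ^ 2 + c ^ 2 * y ^ 2) * Real.Gamma c ^ 2) /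
        ((1 - c) ^ 2 * Real.Gamma (1 - c) ^ 2 * (1 + y ^ 2)) := by
    field_simp
  rw [e5, div_pow, div_le_div_iff₀ (by positivity) (by positivity)]
  refine le_of_mul_le_mul_left ?_ hc2'
  calc _ = (c ^ 2 * (1 + y ^ 2)) * GA1 ^ 2 * ((1 - c) ^ 2 * Real.Gamma (1 - c) ^ 2) := by ring
    _ ≤ _ := r3
    _ = _ := by ring

/-- part CHI -/
theorem chi : R_CHI := by
  constructor
  · intro y
    have h := gm_bound (c := 1 / 4) (by norm_num) (by norm_num) y
    have e1 : (2 * ((1 / 4 : ℝ) : ℂ) + Complex.I * (2 * ((1 / 4 : ℝ) : ℂ) * y)) = 1 / 2 + Complex.I * y / 2 := by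
      push_cast; ring
    rw [e1] at h
    have e2 : GA 2 = Real.Gamma (1 / 4) / Real.Gamma (1 - 1 / 4) := by
      unfold GA; norm_num
    rw [e2]
    have h2 := pow_le_pow_left₀ (by positivity) h 2
    calc ‖gm (1 / 2 + Complex.I * y / 2)‖ ^ 4 = (‖gm (1 / 2 + Complex.I * y / 2)‖ ^ 2) ^ 2 := by ring
      _ ≤ _ := h2
      _ = _ := by
        rw [mul_pow, ← pow_mul]
        norm_num
  · intro y
    have h := gm_bound (c := 1 / 6) (by norm_num) (by norm_num) y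
    have e1 : (2 * ((1 / 6 : ℝ) : ℂ) + Complex.I * (2 * ((1 / 6 : ℝ) : ℂ) * y)) = 1 / 3 + Complex.I * y / 3 := by
      push_cast; ring
    rw [e1] at h
    have e2 : GA 3 = Real.Gamma (1 / 6) / Real.Gamma (1 - 1 / 6) := by
      unfold GA; norm_num
    rw [e2]
    have h2 := pow_le_pow_left₀ (by positivity) h 3
    calc ‖gm (1 / 3 + Complex.I * y / 3)‖ ^ 6 = (‖gm (1 / 3 + Complex.I * y / 3)‖ ^ 2) ^ 3 := by ring
      _ ≤ _ := h2
      _ = _ := by
        rw [mul_pow, ← pow_mul]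
        norm_num

end Pool.Agent.H6.RP
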