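import Pool.Agent.H6.RP.POI

/-! Project RP, part FWK: Fourier transform of the Poisson kernel. -/

set_option autoImplicit false

open MeasureTheory Filter Topology Set

namespace Pool.Agent.H6.RP

open Pool.Agent.H10.RP

lemma norm_sinh_le (w : ℂ) : ‖Complex.sinh w‖ ≤ Real.exp |w.re| := by
  have h1 : 2 * Complex.sinh w = Complex.exp w - Complex.exp (-w) := by
    rw [Complex.sinh]; ring
  have h2 : 2 * ‖Complex.sinh w‖ = ‖2 * Complex.sinh w‖ := by rw [norm_mul]; simp
  have h3 : ‖Complex.exp w‖ ≤ Real.exp |w.re| := by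
    rw [Complex.norm_exp]; exact Real.exp_le_exp.2 (le_abs_self _)
  have h4 : ‖Complex.exp (-w)‖ ≤ Real.exp |w.re| := by
    rw [Complex.norm_exp]; apply Real.exp_le_exp.2
    simpa using neg_le_abs w.re
  have h5 : ‖2 * Complex.sinh w‖ ≤ Real.exp |w.re| + Real.exp |w.re| := by
    rw [h1]
    exact (norm_sub_le _ _).trans (add_le_add h3 h4)
  linarith

lemma P0_neg (θ y : ℝ) : P0 θ (-y) = P0 θ y := by
  unfold P0
  rw [mul_neg, Real.cosh_neg]

lemma int_odd (f : ℝ → ℝ) (hf : ∀ y, f (-y) = -f y) : ∫ y, f y = 0 := by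
  have h := integral_neg_eq_self f volume
  simp_rw [hf] at h
  rw [integral_neg] at h
  linarith

/-- part FWK -/
theorem fwk (hPOM : R_POM) (hPOI : R_POI) : R_FWK := by
  intro θ k h0 h1 hk
  obtain ⟨i1, m1, i0, m0⟩ := hPOM θ h0 h1
  have hs : Real.sinh k ≠ 0 := by
    rw [Ne, Real.sinh_eq_zero]; exact hk
  have hsc : (Complex.sinh (k : ℂ)) ≠ 0 := by
    rw [← Complex.ofReal_sinh]; exact_mod_cast hs
  let H : ℂ → ℂ := fun z => Complex.sinh (k * z) / Complex.sinh k
  have hH : Differentiable ℂ H := by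
    have : Differentiable ℂ fun z : ℂ => Complex.sinh (k * z) := by fun_prop
    exact this.div_const _
  have hg : ∀ z : ℂ, 0 ≤ z.re → z.re ≤ 1 → ‖H z‖ * (1 + |z.im|) ≤
      (Real.exp |k| / ‖Complex.sinh (k : ℂ)‖) * Real.exp (Real.pi * |z.im|) := by
    intro z hz0 hz1
    have h2 : ‖H z‖ ≤ Real.exp |k| / ‖Complex.sinh (k : ℂ)‖ := by
      show ‖Complex.sinh (k * z) / Complex.sinh k‖ ≤ _
      rw [norm_div]
      apply div_le_div_of_nonneg_right _ (norm_nonneg _)
      refine (norm_sinh_le _).trans (Real.exp_le_exp.2 ?_)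
      rw [Complex.re_ofReal_mul, abs_mul]
      calc |k| * |z.re| ≤ |k| * 1 := by
            apply mul_le_mul_of_nonneg_left _ (abs_nonneg _)
            rw [abs_le]; constructor <;> linarith
        _ = |k| := mul_one _
    have h3 : 1 + |z.im| ≤ Real.exp (Real.pi * |z.im|) := by
      have := Real.add_one_le_exp (Real.pi * |z.im|)
      nlinarith [Real.pi_gt_three, abs_nonneg z.im]
    exact mul_le_mul h2 h3 (by positivity) (by positivity)
  have hl : ∀ y : ℝ, (P0 θ y : ℂ) * H (Complex.I * y) =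
      (Complex.I / Complex.sinh k) * ((P0 θ y * Real.sin (k * y) : ℝ) : ℂ) := by
    intro y
    have e : H (Complex.I * y) = Complex.sin (k * y) * Complex.I / Complex.sinh k := by
      show Complex.sinh (k * (Complex.I * y)) / Complex.sinh k = _
      have : (k : ℂ) * (Complex.I * y) = (k * y) * Complex.I := by ring
      rw [this, Complex.sinh_mul_I]
    rw [e]; push_cast; ring
  have hr : ∀ y : ℝ, (P1 θ y : ℂ) * H (1 + Complex.I * y) =
      ((P1 θ y * Real.cos (k * y) : ℝ) : ℂ) +
        (Complex.I * Complex.cosh k / Complex.sinh k) * ((P1 θ y * Real.sin (k * y) : ℝ) : ℂ) := by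
    intro y
    have e : H (1 + Complex.I * y) = Complex.cos (k * y) +
        Complex.I * Complex.cosh k / Complex.sinh k * Complex.sin (k * y) := by
      show Complex.sinh (k * (1 + Complex.I * y)) / Complex.sinh k = _
      have : (k : ℂ) * (1 + Complex.I * y) = k + (k * y) * Complex.I := by ring
      rw [this, Complex.sinh_add, Complex.sinh_mul_I, Complex.cosh_mul_I]
      field_simp
    rw [e]; push_cast; ring
  have is0 : Integrable (fun y : ℝ => P0 θ y * Real.sin (k * y)) := by
    refine i0.mono' (((P0_cont h0 h1).mul (by fun_prop)).aestronglyMeasurable) (ae_of_all _ fun y => ?_)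
    rw [norm_mul, Real.norm_of_nonneg (P0_pos h0 h1 y).le]
    calc P0 θ y * ‖Real.sin (k * y)‖ ≤ P0 θ y * 1 :=
          mul_le_mul_of_nonneg_left (Real.abs_sin_le_one _) (P0_pos h0 h1 y).le
      _ = P0 θ y := mul_one _
  have is1 : Integrable (fun y : ℝ => P1 θ y * Real.sin (k * y)) := by
    refine i1.mono' (((P1_cont h0 h1).mul (by fun_prop)).aestronglyMeasurable) (ae_of_all _ fun y => ?_)
    rw [norm_mul, Real.norm_of_nonneg (P1_pos h0 h1 y).le]
    calc P1 θ y * ‖Real.sin (k * y)‖ ≤ P1 θ y * 1 :=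
          mul_le_mul_of_nonneg_left (Real.abs_sin_le_one _) (P1_pos h0 h1 y).le
      _ = P1 θ y := mul_one _
  have ic1 : Integrable (fun y : ℝ => P1 θ y * Real.cos (k * y)) := by
    refine i1.mono' (((P1_cont h0 h1).mul (by fun_prop)).aestronglyMeasurable) (ae_of_all _ fun y => ?_)
    rw [norm_mul, Real.norm_of_nonneg (P1_pos h0 h1 y).le]
    calc P1 θ y * ‖Real.cos (k * y)‖ ≤ P1 θ y * 1 :=
          mul_le_mul_of_nonneg_left (Real.abs_cos_le_one _) (P1_pos h0 h1 y).le
      _ = P1 θ y := mul_one _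
  have jc1 : Integrable (fun y : ℝ => ((P1 θ y * Real.cos (k * y) : ℝ) : ℂ)) := ic1.ofReal
  have js1 : Integrable (fun y : ℝ => (Complex.I * Complex.cosh k / Complex.sinh k) *
      ((P1 θ y * Real.sin (k * y) : ℝ) : ℂ)) := is1.ofReal.const_mul _
  have js0 : Integrable (fun y : ℝ => (Complex.I / Complex.sinh k) *
      ((P0 θ y * Real.sin (k * y) : ℝ) : ℂ)) := is0.ofReal.const_mul _
  have key := hPOI θ _ H h0 h1 hH.differentiableOn hH.continuous.continuousOn hg
    (by simp_rw [hl]; exact js0) (by simp_rw [hr]; exact jc1.add js1)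
  simp_rw [hl, hr] at key
  rw [integral_add jc1 js1, integral_const_mul, integral_const_mul, integral_complex_ofReal,
    integral_complex_ofReal, integral_complex_ofReal,
    int_odd (fun y => P0 θ y * Real.sin (k * y)) (fun y => by simp [P0_neg]),
    int_odd (fun y => P1 θ y * Real.sin (k * y)) (fun y => by simp [P1_neg])] at key
  have e : H θ = ((Real.sinh (θ * k) / Real.sinh k : ℝ) : ℂ) := by
    show Complex.sinh (k * θ) / Complex.sinh k = _
    push_cast
    rw [mul_comm (k : ℂ)]
  rw [e] at key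
  simp only [Complex.ofReal_zero, mul_zero, zero_add, add_zero] at key
  exact_mod_cast key.symm

end Pool.Agent.H6.RP
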