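import Pool.Agent.H6.RP.POM

/-! Project RP, part GGL: the outer function. -/

set_option autoImplicit false

open MeasureTheory Filter Topology Set
open scoped ComplexConjugate

namespace Pool.Agent.H6.RP

open Pool.Agent.H10.RP

/-- `|Γ(s)| ≤ Γ(Re s)` -/
lemma norm_Gamma_le {s : ℂ} (hs : 0 < s.re) : ‖Complex.Gamma s‖ ≤ Real.Gamma s.re := by
  rw [Complex.Gamma_eq_integral hs, Real.Gamma_eq_integral hs]
  unfold Complex.GammaIntegral
  refine (norm_integral_le_integral_norm _).trans (le_of_eq ?_)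
  refine setIntegral_congr_fun measurableSet_Ioi fun x hx => ?_
  have hx0 : (0 : ℝ) < x := hx
  rw [norm_mul, Complex.norm_cpow_eq_rpow_re_of_pos hx0, Complex.norm_real,
    Real.norm_of_nonneg (Real.exp_pos _).le]
  simp

lemma Gamma_le_one {x : ℝ} (h1 : 1 ≤ x) (h2 : x ≤ 2) : Real.Gamma x ≤ 1 := by
  have h := Real.convexOn_Gamma.le_max_of_mem_Icc (x := 1) (y := 2) (by simp) (by simp) ⟨h1, h2⟩
  simpa [Real.Gamma_one, Real.Gamma_two] using h

lemma norm_sin_le (w : ℂ) : ‖Complex.sin w‖ ≤ Real.exp |w.im| := by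
  have h1 : 2 * Complex.sin w = (Complex.exp (-w * Complex.I) - Complex.exp (w * Complex.I)) * Complex.I := by
    rw [Complex.sin]; ring
  have h2 : 2 * ‖Complex.sin w‖ = ‖2 * Complex.sin w‖ := by rw [norm_mul]; simp
  have h3 : ‖Complex.exp (-w * Complex.I)‖ ≤ Real.exp |w.im| := by
    rw [Complex.norm_exp]; apply Real.exp_le_exp.2
    simpa using le_abs_self w.im
  have h4 : ‖Complex.exp (w * Complex.I)‖ ≤ Real.exp |w.im| := by
    rw [Complex.norm_exp]; apply Real.exp_le_exp.2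
    simpa using neg_le_abs w.im
  have h5 : ‖2 * Complex.sin w‖ ≤ Real.exp |w.im| + Real.exp |w.im| := by
    rw [h1, norm_mul, Complex.norm_I, mul_one]
    exact (norm_sub_le _ _).trans (add_le_add h3 h4)
  linarith

lemma conj_two : (starRingEnd ℂ) 2 = 2 := by
  have : (2 : ℂ) = ((2 : ℝ) : ℂ) := by norm_num
  rw [this, Complex.conj_ofReal]

lemma GG_diff : DifferentiableOn ℂ GG {z | -2 < z.re} := by
  intro z hz
  have hz' : -2 < z.re := hz
  apply DifferentiableAt.differentiableWithinAt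
  have h1 : DifferentiableAt ℂ (fun z : ℂ => (2 : ℂ) ^ z) z := by
    have : (fun z : ℂ => (2 : ℂ) ^ z) = fun z => Complex.exp (Complex.log 2 * z) := by
      funext z; rw [Complex.cpow_def_of_ne_zero two_ne_zero]
    rw [this]; fun_prop
  have h2 : DifferentiableAt ℂ (fun z : ℂ => Complex.Gamma (1 + z / 2)) z := by
    refine DifferentiableAt.comp z (Complex.differentiableAt_Gamma _ fun m h => ?_) (by fun_prop)
    have h5 := congrArg Complex.re h
    simp at h5
    have h6 : (0 : ℝ) ≤ m := Nat.cast_nonneg m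
    linarith
  have h3 : DifferentiableAt ℂ (fun z : ℂ => (Complex.Gamma (1 - z / 2))⁻¹) z := by
    exact (Complex.differentiable_one_div_Gamma.comp
      (by fun_prop : Differentiable ℂ fun z : ℂ => 1 - z / 2)) z
  have h4 : GG = fun z : ℂ => (2 : ℂ) ^ z * Complex.Gamma (1 + z / 2) * (Complex.Gamma (1 - z / 2))⁻¹ := by
    funext z; unfold GG; rw [div_eq_mul_inv]
  rw [h4]
  exact (h1.mul h2).mul h3

lemma GG_zero (y : ℝ) : ‖GG (Complex.I * y)‖ = 1 := by
  unfold GG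
  have h1 : (1 - Complex.I * y / 2 : ℂ) = conj (1 + Complex.I * y / 2) := by
    rw [Complex.ext_iff]; simp [conj_two, neg_div]
  have h2 : ‖(2 : ℂ) ^ (Complex.I * y)‖ = 1 := by
    have := Complex.norm_cpow_eq_rpow_re_of_pos (x := 2) two_pos (Complex.I * y)
    simpa using this
  rw [norm_div, norm_mul, h2, h1, Complex.Gamma_conj, Complex.norm_conj, one_mul]
  apply div_self
  rw [norm_ne_zero_iff]
  apply Complex.Gamma_ne_zero_of_re_pos
  simp

lemma GG_one (y : ℝ) : ‖GG (1 + Complex.I * y)‖ ^ 2 = 1 + y ^ 2 := by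
  unfold GG
  have h1 : (1 - (1 + Complex.I * y) / 2 : ℂ) = conj (1 / 2 + Complex.I * y / 2) := by
    rw [Complex.ext_iff]; constructor
    · simp [conj_two]; norm_num
    · simp [conj_two, neg_div]
  have h3 : (1 / 2 + Complex.I * y / 2 : ℂ) ≠ 0 := by
    intro h
    have := congrArg Complex.re h
    simp at this
  have h2 : Complex.Gamma (1 + (1 + Complex.I * y) / 2) =
      (1 / 2 + Complex.I * y / 2) * Complex.Gamma (1 / 2 + Complex.I * y / 2) := by
    rw [← Complex.Gamma_add_one _ h3]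
    congr 1; ring
  have h4 : ‖(2 : ℂ) ^ (1 + Complex.I * y : ℂ)‖ = 2 := by
    have := Complex.norm_cpow_eq_rpow_re_of_pos (x := 2) two_pos (1 + Complex.I * y)
    simpa using this
  have h5 : ‖Complex.Gamma (1 / 2 + Complex.I * y / 2)‖ ≠ 0 := by
    rw [norm_ne_zero_iff]
    apply Complex.Gamma_ne_zero_of_re_pos
    simp
  rw [norm_div, norm_mul, h4, h2, h1, Complex.Gamma_conj, Complex.norm_conj, norm_mul]
  have h6 : 2 * (‖(1 / 2 + Complex.I * y / 2 : ℂ)‖ * ‖Complex.Gamma (1 / 2 + Complex.I * y / 2)‖) /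
      ‖Complex.Gamma (1 / 2 + Complex.I * y / 2)‖ = 2 * ‖(1 / 2 + Complex.I * y / 2 : ℂ)‖ := by
    rw [← mul_assoc, mul_div_assoc, div_self h5, mul_one]
  rw [h6]
  have h7 : ‖(1 / 2 + Complex.I * y / 2 : ℂ)‖ ^ 2 = (1 + y ^ 2) / 4 := by
    rw [← Complex.normSq_eq_norm_sq, Complex.normSq_apply]
    simp
    ring
  rw [mul_pow, h7]; ring

lemma GG_real (θ : ℝ) : GG θ = (GGr θ : ℂ) := by
  unfold GG GGr
  push_cast
  rw [← Complex.Gamma_ofReal, ← Complex.Gamma_ofReal, Complex.ofReal_cpow (by norm_num)]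
  push_cast
  rfl

lemma GG_formula {z : ℂ} (h0 : z ≠ 0) (h1 : 0 ≤ z.re) (h2 : z.re ≤ 1) :
    GG z = 2 ^ z * Complex.Gamma (1 + z / 2) ^ 2 * Complex.sin (Real.pi * (z / 2)) /
      (Real.pi * (z / 2)) := by
  have hz2 : z / 2 ≠ 0 := div_ne_zero h0 two_ne_zero
  have hr := Complex.Gamma_mul_Gamma_one_sub (z / 2)
  have hg : Complex.Gamma (1 + z / 2) = z / 2 * Complex.Gamma (z / 2) := by
    rw [add_comm, Complex.Gamma_add_one _ hz2]
  have hg1 : Complex.Gamma (1 - z / 2) ≠ 0 := by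
    apply Complex.Gamma_ne_zero_of_re_pos
    have : (1 - z / 2 : ℂ).re = 1 - z.re / 2 := by simp
    rw [this]; linarith
  have hg2 : Complex.Gamma (1 + z / 2) ≠ 0 := by
    apply Complex.Gamma_ne_zero_of_re_pos
    have : (1 + z / 2 : ℂ).re = 1 + z.re / 2 := by simp
    rw [this]; linarith
  have hg0 : Complex.Gamma (z / 2) ≠ 0 := by
    intro h; rw [hg, h, mul_zero] at hg2; exact hg2 rfl
  have hs : Complex.sin (Real.pi * (z / 2)) ≠ 0 := by
    intro h
    rw [h, div_zero] at hr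
    exact mul_ne_zero hg0 hg1 hr
  have hpi : (Real.pi : ℂ) ≠ 0 := by exact_mod_cast Real.pi_ne_zero
  have hs2 : Complex.sin (Real.pi * (z / 2)) = Real.pi / (Complex.Gamma (z / 2) * Complex.Gamma (1 - z / 2)) := by
    rw [hr]; field_simp
  rw [hs2]
  unfold GG
  rw [hg]
  field_simp

lemma GG_growth : ∃ C : ℝ, ∀ z : ℂ, 0 ≤ z.re → z.re ≤ 1 →
    ‖GG z‖ ^ 2 * (1 + |z.im|) ≤ C * Real.exp (Real.pi * |z.im|) := by
  -- bounded part
  have hK : IsCompact (Metric.closedBall (0 : ℂ) 1 ∩ {z : ℂ | 0 ≤ z.re}) :=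
    (isCompact_closedBall _ _).inter_right (isClosed_le continuous_const Complex.continuous_re)
  have hcont : ContinuousOn GG (Metric.closedBall (0 : ℂ) 1 ∩ {z : ℂ | 0 ≤ z.re}) := by
    refine GG_diff.continuousOn.mono fun z hz => ?_
    have : 0 ≤ z.re := hz.2
    show -2 < z.re
    linarith
  obtain ⟨B, hB⟩ := hK.exists_bound_of_continuousOn hcont
  have hB0 : 0 ≤ B := (norm_nonneg _).trans (hB 0 ⟨by simp, by simp⟩)
  refine ⟨2 * B ^ 2 + 4, fun z h0 h1 => ?_⟩
  have he : 1 ≤ Real.exp (Real.pi * |z.im|) :=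
    Real.one_le_exp (mul_nonneg Real.pi_pos.le (abs_nonneg _))
  have him : |z.im| ≤ ‖z‖ := Complex.abs_im_le_norm z
  rcases le_total ‖z‖ 1 with h | h
  · have h2 := hB z ⟨by simpa using h, h0⟩
    have h3 : ‖GG z‖ ^ 2 ≤ B ^ 2 := pow_le_pow_left₀ (norm_nonneg _) h2 2
    have h4 : 1 + |z.im| ≤ 2 := by linarith
    calc ‖GG z‖ ^ 2 * (1 + |z.im|) ≤ B ^ 2 * 2 := mul_le_mul h3 h4 (by positivity) (by positivity)
      _ ≤ (2 * B ^ 2 + 4) * 1 := by linarith
      _ ≤ _ := mul_le_mul_of_nonneg_left he (by positivity)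
  · have hz : z ≠ 0 := by
      intro hz; rw [hz, norm_zero] at h; linarith
    have hz0 : 0 < ‖z‖ := by linarith
    have n1 : ‖(2 : ℂ) ^ z‖ ≤ 2 := by
      have := Complex.norm_cpow_eq_rpow_re_of_pos (x := 2) two_pos z
      rw [show ((2 : ℝ) : ℂ) = 2 by norm_num] at this
      rw [this]
      calc (2 : ℝ) ^ z.re ≤ (2 : ℝ) ^ (1 : ℝ) := Real.rpow_le_rpow_of_exponent_le (by norm_num) h1
        _ = 2 := by norm_num
    have hre : (1 + z / 2 : ℂ).re = 1 + z.re / 2 := by simp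
    have n2 : ‖Complex.Gamma (1 + z / 2)‖ ≤ 1 := by
      refine (norm_Gamma_le (by rw [hre]; linarith)).trans ?_
      rw [hre]
      exact Gamma_le_one (by linarith) (by linarith)
    have n3 : ‖Complex.sin (Real.pi * (z / 2))‖ ^ 2 ≤ Real.exp (Real.pi * |z.im|) := by
      have h5 := norm_sin_le (Real.pi * (z / 2))
      have h6 : ((Real.pi : ℂ) * (z / 2)).im = Real.pi * (z.im / 2) := by
        rw [Complex.im_ofReal_mul]
        simp
      rw [h6, abs_mul, abs_div, abs_of_pos Real.pi_pos] at h5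
      calc ‖Complex.sin (Real.pi * (z / 2))‖ ^ 2 ≤ (Real.exp (Real.pi * (|z.im| / |2|))) ^ 2 :=
            pow_le_pow_left₀ (norm_nonneg _) h5 2
        _ = Real.exp (Real.pi * |z.im|) := by
            rw [← Real.exp_nat_mul]
            congr 1
            rw [abs_of_pos (two_pos : (0:ℝ) < 2)]
            push_cast; ring
    have n4 : ‖(Real.pi : ℂ) * (z / 2)‖ ^ 2 = Real.pi ^ 2 * ‖z‖ ^ 2 / 4 := by
      rw [norm_mul, norm_div, Complex.norm_real, Real.norm_of_nonneg Real.pi_pos.le]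
      simp
      ring
    have key : ‖GG z‖ ^ 2 ≤ 16 * Real.exp (Real.pi * |z.im|) / (Real.pi ^ 2 * ‖z‖ ^ 2) := by
      rw [GG_formula hz h0 h1, norm_div, norm_mul, norm_mul, norm_pow, div_pow, n4, mul_pow, mul_pow]
      have hp : 0 < Real.pi ^ 2 * ‖z‖ ^ 2 := by positivity
      rw [div_le_div_iff₀ (by positivity) hp]
      have m1 : ‖(2 : ℂ) ^ z‖ ^ 2 ≤ 4 := by
        calc ‖(2 : ℂ) ^ z‖ ^ 2 ≤ 2 ^ 2 := pow_le_pow_left₀ (norm_nonneg _) n1 2
          _ = 4 := by norm_num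
      have m2 : (‖Complex.Gamma (1 + z / 2)‖ ^ 2) ^ 2 ≤ 1 := by
        rw [← pow_mul]; exact pow_le_one₀ (norm_nonneg _) n2
      calc ‖(2 : ℂ) ^ z‖ ^ 2 * (‖Complex.Gamma (1 + z / 2)‖ ^ 2) ^ 2 *
            ‖Complex.sin (Real.pi * (z / 2))‖ ^ 2 * (Real.pi ^ 2 * ‖z‖ ^ 2)
          ≤ 4 * 1 * Real.exp (Real.pi * |z.im|) * (Real.pi ^ 2 * ‖z‖ ^ 2) := by gcongr
        _ = 16 * Real.exp (Real.pi * |z.im|) * (Real.pi ^ 2 * ‖z‖ ^ 2 / 4) := by ring
    have hpi9 : 9 ≤ Real.pi ^ 2 := by nlinarith [Real.pi_gt_three]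
    calc ‖GG z‖ ^ 2 * (1 + |z.im|)
        ≤ 16 * Real.exp (Real.pi * |z.im|) / (Real.pi ^ 2 * ‖z‖ ^ 2) * (2 * ‖z‖) := by
          apply mul_le_mul key (by linarith) (by positivity) (by positivity)
      _ = 32 / (Real.pi ^ 2 * ‖z‖) * Real.exp (Real.pi * |z.im|) := by
          field_simp; ring
      _ ≤ 4 * Real.exp (Real.pi * |z.im|) := by
          apply mul_le_mul_of_nonneg_right _ (Real.exp_pos _).le
          rw [div_le_iff₀ (by positivity)]
          nlinarith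
      _ ≤ (2 * B ^ 2 + 4) * Real.exp (Real.pi * |z.im|) := by
          apply mul_le_mul_of_nonneg_right _ (Real.exp_pos _).le
          nlinarith [sq_nonneg B]

/-- part GGL -/
theorem ggl : R_GGL := ⟨GG_diff, GG_zero, GG_one, fun θ _ _ => GG_real θ, GG_growth⟩

end Pool.Agent.H6.RP
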