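import Pool.Agent.H6.RP.Der

/-! Project RP, part NUA: the weights are admissible. -/

set_option autoImplicit false

open MeasureTheory Filter Topology Set

namespace Pool.Agent.H6.RP

open Pool.Agent.H10.RP

lemma hyp_w {k w : ℝ} (hw : w = Real.exp (k / 3)) :
    Real.sinh k = (w ^ 3 - (w ^ 3)⁻¹) / 2 ∧ Real.cosh k = (w ^ 3 + (w ^ 3)⁻¹) / 2 ∧
    Real.sinh (1 / 3 * k) = (w - w⁻¹) / 2 ∧ Real.cosh (1 / 3 * k) = (w + w⁻¹) / 2 ∧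
    Real.sinh (2 / 3 * k) = (w ^ 2 - (w ^ 2)⁻¹) / 2 ∧ Real.cosh (2 / 3 * k) = (w ^ 2 + (w ^ 2)⁻¹) / 2 := by
  have e1 : Real.exp k = w ^ 3 := by rw [hw, ← Real.exp_nat_mul]; congr 1; push_cast; ring
  have e2 : Real.exp (1 / 3 * k) = w := by rw [hw]; congr 1; ring
  have e3 : Real.exp (2 / 3 * k) = w ^ 2 := by rw [hw, ← Real.exp_nat_mul]; congr 1; push_cast; ring
  refine ⟨?_, ?_, ?_, ?_, ?_, ?_⟩
  · rw [Real.sinh_eq, Real.exp_neg, e1]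
  · rw [Real.cosh_eq, Real.exp_neg, e1]
  · rw [Real.sinh_eq, Real.exp_neg, e2]
  · rw [Real.cosh_eq, Real.exp_neg, e2]
  · rw [Real.sinh_eq, Real.exp_neg, e3]
  · rw [Real.cosh_eq, Real.exp_neg, e3]

/-- algebra for `θ = 1/3` -/
lemma alg_third {w G0 G1 G2 G3 G4 : ℝ} (hw : 0 < w) (hw1 : w ≠ 1)
    (e0 : G0 * ((w ^ 3 - (w ^ 3)⁻¹) / 2) = (w - w⁻¹) / 2)
    (e1 : G1 * ((w ^ 3 - (w ^ 3)⁻¹) / 2) + G0 * ((w ^ 3 + (w ^ 3)⁻¹) / 2) = 1 / 3 * ((w + w⁻¹) / 2))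
    (e2 : G2 * ((w ^ 3 - (w ^ 3)⁻¹) / 2) + 2 * (G1 * ((w ^ 3 + (w ^ 3)⁻¹) / 2)) +
      G0 * ((w ^ 3 - (w ^ 3)⁻¹) / 2) = (1 / 3) ^ 2 * ((w - w⁻¹) / 2))
    (e3 : G3 * ((w ^ 3 - (w ^ 3)⁻¹) / 2) + 3 * (G2 * ((w ^ 3 + (w ^ 3)⁻¹) / 2)) +
      3 * (G1 * ((w ^ 3 - (w ^ 3)⁻¹) / 2)) + G0 * ((w ^ 3 + (w ^ 3)⁻¹) / 2) =
      (1 / 3) ^ 3 * ((w + w⁻¹) / 2))
    (e4 : G4 * ((w ^ 3 - (w ^ 3)⁻¹) / 2) + 4 * (G3 * ((w ^ 3 + (w ^ 3)⁻¹) / 2)) +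
      6 * (G2 * ((w ^ 3 - (w ^ 3)⁻¹) / 2)) + 4 * (G1 * ((w ^ 3 + (w ^ 3)⁻¹) / 2)) +
      G0 * ((w ^ 3 - (w ^ 3)⁻¹) / 2) = (1 / 3) ^ 4 * ((w - w⁻¹) / 2)) :
    0 ≤ G0 - 2 * G2 + G4 := by
  have hw0 : w ≠ 0 := hw.ne'
  have hS : (w ^ 3 - (w ^ 3)⁻¹) / 2 ≠ 0 := by
    intro h
    have h2 : w ^ 3 = (w ^ 3)⁻¹ := by linarith
    have h3 : w ^ 6 = 1 := by
      calc w ^ 6 = w ^ 3 * w ^ 3 := by ring
        _ = w ^ 3 * (w ^ 3)⁻¹ := by rw [← h2]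
        _ = 1 := mul_inv_cancel₀ (by positivity)
    exact hw1 ((pow_eq_one_iff_of_nonneg hw.le (by norm_num)).1 h3)
  set D := w ^ 2 + 1 + (w ^ 2)⁻¹ with hD
  have hDpos : 0 < D := by positivity
  have hD3 : 3 ≤ D := by
    have : D - 3 = (w - w⁻¹) ^ 2 := by rw [hD]; field_simp; ring
    nlinarith [sq_nonneg (w - w⁻¹)]
  have hQ : w ^ 4 + w ^ 2 + 1 ≠ 0 := by positivity
  have g0 : G0 = 1 / D := by
    apply mul_right_cancel₀ hS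
    rw [e0, hD]; field_simp; ring
  have g1 : G1 = -(8 * ((w + w⁻¹) / 2) * ((w - w⁻¹) / 2)) / (3 * D ^ 2) := by
    apply mul_right_cancel₀ hS
    have : G1 * ((w ^ 3 - (w ^ 3)⁻¹) / 2) = 1 / 3 * ((w + w⁻¹) / 2) - G0 * ((w ^ 3 + (w ^ 3)⁻¹) / 2) := by
      linarith
    rw [this, g0, hD]; field_simp; ring
  have g2 : G2 = -(4 * (-D ^ 2 + 3 * D + 6)) / (9 * D ^ 3) := by
    apply mul_right_cancel₀ hS
    have : G2 * ((w ^ 3 - (w ^ 3)⁻¹) / 2) = (1 / 3) ^ 2 * ((w - w⁻¹) / 2) -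
      2 * (G1 * ((w ^ 3 + (w ^ 3)⁻¹) / 2)) - G0 * ((w ^ 3 - (w ^ 3)⁻¹) / 2) := by
      linarith
    rw [this, g0, g1, hD]; field_simp; ring
  have g3 : G3 = 32 * ((w + w⁻¹) / 2) * ((w - w⁻¹) / 2) * (-D ^ 2 + 6 * D + 18) / (27 * D ^ 4) := by
    apply mul_right_cancel₀ hS
    have : G3 * ((w ^ 3 - (w ^ 3)⁻¹) / 2) = (1 / 3) ^ 3 * ((w + w⁻¹) / 2) -
      3 * (G2 * ((w ^ 3 + (w ^ 3)⁻¹) / 2)) -
      3 * (G1 * ((w ^ 3 - (w ^ 3)⁻¹) / 2)) - G0 * ((w ^ 3 + (w ^ 3)⁻¹) / 2) := by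
      linarith
    rw [this, g0, g1, g2, hD]; field_simp; ring
  have g4 : G0 - 2 * G2 + G4 =
      (25 * D ^ 4 - 24 * D ^ 3 - 48 * D ^ 2 + 2880 * D + 3456) / (81 * D ^ 5) := by
    apply mul_right_cancel₀ hS
    have : (G0 - 2 * G2 + G4) * ((w ^ 3 - (w ^ 3)⁻¹) / 2) = (1 / 3) ^ 4 * ((w - w⁻¹) / 2) -
      4 * (G3 * ((w ^ 3 + (w ^ 3)⁻¹) / 2)) -
      8 * (G2 * ((w ^ 3 - (w ^ 3)⁻¹) / 2)) - 4 * (G1 * ((w ^ 3 + (w ^ 3)⁻¹) / 2)) := by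
      linarith
    rw [this, g1, g2, g3, hD]; field_simp; ring
  rw [g4]
  apply div_nonneg _ (by positivity)
  nlinarith [mul_nonneg (mul_nonneg (sq_nonneg D) hDpos.le) (sub_nonneg.2 hD3), mul_nonneg (sq_nonneg D) (sub_nonneg.2 hD3),
    sq_nonneg D]

/-- algebra for `θ = 2/3` -/
lemma alg_two_third {w G0 G1 G2 G3 G4 : ℝ} (hw : 0 < w) (hw1 : w ≠ 1)
    (e0 : G0 * ((w ^ 3 - (w ^ 3)⁻¹) / 2) = (w ^ 2 - (w ^ 2)⁻¹) / 2)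
    (e1 : G1 * ((w ^ 3 - (w ^ 3)⁻¹) / 2) + G0 * ((w ^ 3 + (w ^ 3)⁻¹) / 2) =
      2 / 3 * ((w ^ 2 + (w ^ 2)⁻¹) / 2))
    (e2 : G2 * ((w ^ 3 - (w ^ 3)⁻¹) / 2) + 2 * (G1 * ((w ^ 3 + (w ^ 3)⁻¹) / 2)) +
      G0 * ((w ^ 3 - (w ^ 3)⁻¹) / 2) = (2 / 3) ^ 2 * ((w ^ 2 - (w ^ 2)⁻¹) / 2))
    (e3 : G3 * ((w ^ 3 - (w ^ 3)⁻¹) / 2) + 3 * (G2 * ((w ^ 3 + (w ^ 3)⁻¹) / 2)) +
      3 * (G1 * ((w ^ 3 - (w ^ 3)⁻¹) / 2)) + G0 * ((w ^ 3 + (w ^ 3)⁻¹) / 2) =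
      (2 / 3) ^ 3 * ((w ^ 2 + (w ^ 2)⁻¹) / 2))
    (e4 : G4 * ((w ^ 3 - (w ^ 3)⁻¹) / 2) + 4 * (G3 * ((w ^ 3 + (w ^ 3)⁻¹) / 2)) +
      6 * (G2 * ((w ^ 3 - (w ^ 3)⁻¹) / 2)) + 4 * (G1 * ((w ^ 3 + (w ^ 3)⁻¹) / 2)) +
      G0 * ((w ^ 3 - (w ^ 3)⁻¹) / 2) = (2 / 3) ^ 4 * ((w ^ 2 - (w ^ 2)⁻¹) / 2)) :
    0 ≤ G0 - 2 * G2 + G4 := by
  have hw0 : w ≠ 0 := hw.ne'
  have hS : (w ^ 3 - (w ^ 3)⁻¹) / 2 ≠ 0 := by
    intro h
    have h2 : w ^ 3 = (w ^ 3)⁻¹ := by linarith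
    have h3 : w ^ 6 = 1 := by
      calc w ^ 6 = w ^ 3 * w ^ 3 := by ring
        _ = w ^ 3 * (w ^ 3)⁻¹ := by rw [← h2]
        _ = 1 := mul_inv_cancel₀ (by positivity)
    exact hw1 ((pow_eq_one_iff_of_nonneg hw.le (by norm_num)).1 h3)
  set D := w ^ 2 + 1 + (w ^ 2)⁻¹ with hD
  have hDpos : 0 < D := by positivity
  have hD3 : 3 ≤ D := by
    have : D - 3 = (w - w⁻¹) ^ 2 := by rw [hD]; field_simp; ring
    nlinarith [sq_nonneg (w - w⁻¹)]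
  have hQ : w ^ 4 + w ^ 2 + 1 ≠ 0 := by positivity
  have g0 : G0 = 2 * ((w + w⁻¹) / 2) / D := by
    apply mul_right_cancel₀ hS
    rw [e0, hD]; field_simp; ring
  have g1 : G1 = -(2 * ((w - w⁻¹) / 2) * (D + 2)) / (3 * D ^ 2) := by
    apply mul_right_cancel₀ hS
    have : G1 * ((w ^ 3 - (w ^ 3)⁻¹) / 2) = 2 / 3 * ((w ^ 2 + (w ^ 2)⁻¹) / 2) -
      G0 * ((w ^ 3 + (w ^ 3)⁻¹) / 2) := by
      linarith
    rw [this, g0, hD]; field_simp; ring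
  have g2 : G2 = -(2 * ((w + w⁻¹) / 2) * (24 - D ^ 2)) / (9 * D ^ 3) := by
    apply mul_right_cancel₀ hS
    have : G2 * ((w ^ 3 - (w ^ 3)⁻¹) / 2) = (2 / 3) ^ 2 * ((w ^ 2 - (w ^ 2)⁻¹) / 2) -
      2 * (G1 * ((w ^ 3 + (w ^ 3)⁻¹) / 2)) - G0 * ((w ^ 3 - (w ^ 3)⁻¹) / 2) := by
      linarith
    rw [this, g0, g1, hD]; field_simp; ring
  have g3 : G3 = 2 * ((w - w⁻¹) / 2) * (-D ^ 3 - 2 * D ^ 2 + 120 * D + 144) / (27 * D ^ 4) := by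
    apply mul_right_cancel₀ hS
    have : G3 * ((w ^ 3 - (w ^ 3)⁻¹) / 2) = (2 / 3) ^ 3 * ((w ^ 2 + (w ^ 2)⁻¹) / 2) -
      3 * (G2 * ((w ^ 3 + (w ^ 3)⁻¹) / 2)) -
      3 * (G1 * ((w ^ 3 - (w ^ 3)⁻¹) / 2)) - G0 * ((w ^ 3 + (w ^ 3)⁻¹) / 2) := by
      linarith
    rw [this, g0, g1, g2, hD]; field_simp; ring
  have g4 : G0 - 2 * G2 + G4 =
      128 * ((w + w⁻¹) / 2) * (D ^ 4 - 3 * D ^ 2 + 18 * D + 54) / (81 * D ^ 5) := by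
    apply mul_right_cancel₀ hS
    have : (G0 - 2 * G2 + G4) * ((w ^ 3 - (w ^ 3)⁻¹) / 2) = (2 / 3) ^ 4 * ((w ^ 2 - (w ^ 2)⁻¹) / 2) -
      4 * (G3 * ((w ^ 3 + (w ^ 3)⁻¹) / 2)) -
      8 * (G2 * ((w ^ 3 - (w ^ 3)⁻¹) / 2)) - 4 * (G1 * ((w ^ 3 + (w ^ 3)⁻¹) / 2)) := by
      linarith
    rw [this, g1, g2, g3, hD]; field_simp; ring
  rw [g4]
  apply div_nonneg _ (by positivity)
  have h5 : 0 ≤ D ^ 4 - 3 * D ^ 2 + 18 * D + 54 := by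
    nlinarith [mul_nonneg (sq_nonneg D) (sub_nonneg.2 (show (9:ℝ) ≤ D ^ 2 by nlinarith)), sq_nonneg D]
  have h6 : 0 < w + w⁻¹ := by positivity
  positivity

/-- algebra for `θ = 1/2` -/
lemma alg_half {w G0 G1 G2 : ℝ} (hw : 0 < w) (hw1 : w ≠ 1)
    (e0 : G0 * ((w ^ 2 - (w ^ 2)⁻¹) / 2) = (w - w⁻¹) / 2)
    (e1 : G1 * ((w ^ 2 - (w ^ 2)⁻¹) / 2) + G0 * ((w ^ 2 + (w ^ 2)⁻¹) / 2) = 1 / 2 * ((w + w⁻¹) / 2))
    (e2 : G2 * ((w ^ 2 - (w ^ 2)⁻¹) / 2) + 2 * (G1 * ((w ^ 2 + (w ^ 2)⁻¹) / 2)) +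
      G0 * ((w ^ 2 - (w ^ 2)⁻¹) / 2) = (1 / 2) ^ 2 * ((w - w⁻¹) / 2)) :
    0 ≤ 2 * G0 - 1 / 2 * G2 := by
  have hw0 : w ≠ 0 := hw.ne'
  have hS : (w ^ 2 - (w ^ 2)⁻¹) / 2 ≠ 0 := by
    intro h
    have h2 : w ^ 2 = (w ^ 2)⁻¹ := by linarith
    have h3 : w ^ 4 = 1 := by
      calc w ^ 4 = w ^ 2 * w ^ 2 := by ring
        _ = w ^ 2 * (w ^ 2)⁻¹ := by rw [← h2]
        _ = 1 := mul_inv_cancel₀ (by positivity)
    exact hw1 ((pow_eq_one_iff_of_nonneg hw.le (by norm_num)).1 h3)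
  set c := (w + w⁻¹) / 2 with hc
  have hcpos : 0 < c := by positivity
  have hQ : w ^ 2 + 1 ≠ 0 := by positivity
  have g0 : G0 = 1 / (2 * c) := by
    apply mul_right_cancel₀ hS
    rw [e0, hc]; field_simp; ring
  have g1 : G1 = -((w - w⁻¹) / 2) / (4 * c ^ 2) := by
    apply mul_right_cancel₀ hS
    have : G1 * ((w ^ 2 - (w ^ 2)⁻¹) / 2) = 1 / 2 * c - G0 * ((w ^ 2 + (w ^ 2)⁻¹) / 2) := by
      linarith
    rw [this, g0, hc]; field_simp; ring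
  have g2 : G2 = (c ^ 2 - 2) / (8 * c ^ 3) := by
    apply mul_right_cancel₀ hS
    have : G2 * ((w ^ 2 - (w ^ 2)⁻¹) / 2) = (1 / 2) ^ 2 * ((w - w⁻¹) / 2) -
      2 * (G1 * ((w ^ 2 + (w ^ 2)⁻¹) / 2)) - G0 * ((w ^ 2 - (w ^ 2)⁻¹) / 2) := by
      linarith
    rw [this, g0, g1, hc]; field_simp; ring
  have g3 : 2 * G0 - 1 / 2 * G2 = (15 * c ^ 2 + 2) / (16 * c ^ 3) := by
    rw [g0, g2]; field_simp; ring
  rw [g3]; positivity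

lemma exp_ne_one {t : ℝ} (h : t ≠ 0) : Real.exp t ≠ 1 := by
  rw [Ne, Real.exp_eq_one_iff]; exact h

lemma pos_third (hF : R_FWK) (k : ℝ) (hk : k ≠ 0) :
    0 ≤ Gm (1 / 3) 0 k - 2 * Gm (1 / 3) 2 k + Gm (1 / 3) 4 k := by
  have h0 : (0 : ℝ) < 1 / 3 := by norm_num
  have h1 : (1 : ℝ) / 3 < 1 := by norm_num
  obtain ⟨a1, a2, a3, a4, -, -⟩ := hyp_w (k := k) (w := Real.exp (k / 3)) rfl
  have e0 := E0 hF h0 h1 k
  have e1 := E1 hF h0 h1 k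
  have e2 := E2 hF h0 h1 k
  have e3 := E3 hF h0 h1 k
  have e4 := E4 hF h0 h1 k
  rw [a1, a3] at e0
  rw [a1, a2, a4] at e1
  rw [a1, a2, a3] at e2
  rw [a1, a2, a4] at e3
  rw [a1, a2, a3] at e4
  exact alg_third (Real.exp_pos _) (exp_ne_one (div_ne_zero hk (by norm_num))) e0 e1 e2 e3 e4

lemma pos_two_third (hF : R_FWK) (k : ℝ) (hk : k ≠ 0) :
    0 ≤ Gm (2 / 3) 0 k - 2 * Gm (2 / 3) 2 k + Gm (2 / 3) 4 k := by
  have h0 : (0 : ℝ) < 2 / 3 := by norm_num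
  have h1 : (2 : ℝ) / 3 < 1 := by norm_num
  obtain ⟨a1, a2, -, -, a3, a4⟩ := hyp_w (k := k) (w := Real.exp (k / 3)) rfl
  have e0 := E0 hF h0 h1 k
  have e1 := E1 hF h0 h1 k
  have e2 := E2 hF h0 h1 k
  have e3 := E3 hF h0 h1 k
  have e4 := E4 hF h0 h1 k
  rw [a1, a3] at e0
  rw [a1, a2, a4] at e1
  rw [a1, a2, a3] at e2
  rw [a1, a2, a4] at e3
  rw [a1, a2, a3] at e4
  exact alg_two_third (Real.exp_pos _) (exp_ne_one (div_ne_zero hk (by norm_num))) e0 e1 e2 e3 e4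

lemma pos_half (hF : R_FWK) (k : ℝ) (hk : k ≠ 0) :
    0 ≤ 2 * Gm (1 / 2) 0 k - 1 / 2 * Gm (1 / 2) 2 k := by
  have h0 : (0 : ℝ) < 1 / 2 := by norm_num
  have h1 : (1 : ℝ) / 2 < 1 := by norm_num
  set w := Real.exp (k / 2) with hw
  have b1 : Real.exp k = w ^ 2 := by rw [hw, ← Real.exp_nat_mul]; congr 1; push_cast; ring
  have b2 : Real.exp (1 / 2 * k) = w := by rw [hw]; congr 1; ring
  have a1 : Real.sinh k = (w ^ 2 - (w ^ 2)⁻¹) / 2 := by rw [Real.sinh_eq, Real.exp_neg, b1]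
  have a2 : Real.cosh k = (w ^ 2 + (w ^ 2)⁻¹) / 2 := by rw [Real.cosh_eq, Real.exp_neg, b1]
  have a3 : Real.sinh (1 / 2 * k) = (w - w⁻¹) / 2 := by rw [Real.sinh_eq, Real.exp_neg, b2]
  have a4 : Real.cosh (1 / 2 * k) = (w + w⁻¹) / 2 := by rw [Real.cosh_eq, Real.exp_neg, b2]
  have e0 := E0 hF h0 h1 k
  have e1 := E1 hF h0 h1 k
  have e2 := E2 hF h0 h1 k
  rw [a1, a3] at e0
  rw [a1, a2, a4] at e1
  rw [a1, a2, a3] at e2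
  exact alg_half (Real.exp_pos _) (exp_ne_one (div_ne_zero hk (by norm_num))) e0 e1 e2

lemma int_cos {θ : ℝ} (h0 : 0 < θ) (h1 : θ < 1) (n : ℕ) (k : ℝ) :
    Integrable (fun y => P1 θ y * (y ^ n * Real.cos (k * y))) := by
  refine (P1_pow_int h0 h1 n).mono' (((P1_cont h0 h1).mul (by fun_prop)).aestronglyMeasurable)
    (ae_of_all _ fun y => ?_)
  rw [norm_mul, norm_mul, Real.norm_of_nonneg (P1_pos h0 h1 y).le, norm_pow, Real.norm_eq_abs,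
    Real.norm_eq_abs]
  apply mul_le_mul_of_nonneg_left _ (P1_pos h0 h1 y).le
  calc |y| ^ n * |Real.cos (k * y)| ≤ |y| ^ n * 1 :=
        mul_le_mul_of_nonneg_left (Real.abs_cos_le_one _) (by positivity)
    _ = _ := mul_one _

lemma one_add_sq_le (y : ℝ) : 1 + y ^ 2 ≤ 2 * Real.exp |y| := by
  have h := Real.quadratic_le_exp_of_nonneg (abs_nonneg y)
  rw [sq_abs] at h
  have := abs_nonneg y
  nlinarith

lemma nu_weight {θ : ℝ} (h0 : 0 < θ) (h1 : θ < 1)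
    (hpos : ∀ k : ℝ, k ≠ 0 → 0 ≤ Gm θ 0 k - 2 * Gm θ 2 k + Gm θ 4 k) :
    Nu (fun y => P1 θ y / θ * (1 + y ^ 2)) := by
  refine ⟨?_, fun y => ?_, fun y => ?_, ?_, fun k => ?_⟩
  · exact ((P1_cont h0 h1).div_const _).mul (by fun_prop)
  · have := (P1_pos h0 h1 y).le
    positivity
  · simp only [P1_neg, even_two, Even.neg_pow]
  · obtain ⟨A, hA, h⟩ := P1_decay h0 h1
    refine ⟨A / θ * 2, Real.pi - 1, by linarith [Real.pi_gt_three], fun y => ?_⟩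
    have e : Real.exp (-((Real.pi - 1) * |y|)) = Real.exp (-(Real.pi * |y|)) * Real.exp |y| := by
      rw [← Real.exp_add]; congr 1; ring
    rw [e]
    calc P1 θ y / θ * (1 + y ^ 2) ≤ (A * Real.exp (-(Real.pi * |y|))) / θ * (2 * Real.exp |y|) := by
          apply mul_le_mul (div_le_div_of_nonneg_right (h y) h0.le) (one_add_sq_le y) (by positivity)
            (by positivity)
      _ = _ := by ring
  · rcases eq_or_ne k 0 with rfl | hk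
    · refine integral_nonneg fun y => ?_
      have := (P1_pos h0 h1 y).le
      simp only [zero_mul, Real.cos_zero, mul_one, Pi.zero_apply]
      positivity
    · have e : ∀ y : ℝ, P1 θ y / θ * (1 + y ^ 2) * (1 + y ^ 2) * Real.cos (k * y) =
          θ⁻¹ * (P1 θ y * (y ^ 0 * Real.cos (k * y)) + 2 * (P1 θ y * (y ^ 2 * Real.cos (k * y))) +
            P1 θ y * (y ^ 4 * Real.cos (k * y))) := by
        intro y; rw [div_eq_mul_inv]; ring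
      simp_rw [e]
      have i1 : Integrable (fun y => P1 θ y * (y ^ 0 * Real.cos (k * y)) +
          2 * (P1 θ y * (y ^ 2 * Real.cos (k * y)))) := (int_cos h0 h1 0 k).add ((int_cos h0 h1 2 k).const_mul 2)
      rw [integral_const_mul, integral_add i1 (int_cos h0 h1 4 k), integral_add (int_cos h0 h1 0 k) ((int_cos h0 h1 2 k).const_mul 2),
        integral_const_mul]
      have g0 : Gm θ 0 k = ∫ y, P1 θ y * (y ^ 0 * Real.cos (k * y)) := by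
        rw [Gm_zero]; congr 1; funext y; ring
      have hp := hpos k hk
      rw [g0, Gm_two, Gm_four] at hp
      apply mul_nonneg (by positivity)
      linarith

lemma nu_half (hF : R_FWK) : Nu (fun y => 2 * (P1 (1 / 2) (2 * y) / (1 / 2))) := by
  have h0 : (0 : ℝ) < 1 / 2 := by norm_num
  have h1 : (1 : ℝ) / 2 < 1 := by norm_num
  refine ⟨?_, fun y => ?_, fun y => ?_, ?_, fun k => ?_⟩
  · exact continuous_const.mul (((P1_cont h0 h1).comp (by fun_prop)).div_const _)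
  · have := (P1_pos h0 h1 (2 * y)).le
    positivity
  · simp only [mul_neg, P1_neg]
  · obtain ⟨A, hA, h⟩ := P1_decay h0 h1
    refine ⟨4 * A, 2 * Real.pi, by positivity, fun y => ?_⟩
    have h2 := h (2 * y)
    have e : Real.pi * |2 * y| = 2 * Real.pi * |y| := by
      rw [abs_mul, abs_of_pos two_pos]; ring
    rw [e] at h2
    simp only
    linarith
  · let g : ℝ → ℝ := fun t => 2 * (P1 (1 / 2) t / (1 / 2)) * (1 + (t / 2) ^ 2) * Real.cos (k / 2 * t)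
    have e : (∫ y : ℝ, 2 * (P1 (1 / 2) (2 * y) / (1 / 2)) * (1 + y ^ 2) * Real.cos (k * y)) =
        ∫ y : ℝ, g (2 * y) := by
      congr 1; funext y
      simp only [g]
      have e1 : k / 2 * (2 * y) = k * y := by ring
      have e2 : 2 * y / 2 = y := by ring
      rw [e1, e2]
    have e3 : ∫ t, g t = 4 * (∫ t, P1 (1 / 2) t * (t ^ 0 * Real.cos (k / 2 * t))) +
        ∫ t, P1 (1 / 2) t * (t ^ 2 * Real.cos (k / 2 * t)) := by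
      have e4 : ∀ t, g t = 4 * (P1 (1 / 2) t * (t ^ 0 * Real.cos (k / 2 * t))) +
          P1 (1 / 2) t * (t ^ 2 * Real.cos (k / 2 * t)) := by
        intro t; simp only [g]; ring
      simp_rw [e4]
      rw [integral_add ((int_cos h0 h1 0 _).const_mul 4) (int_cos h0 h1 2 _), integral_const_mul]
    rw [e, Measure.integral_comp_mul_left, smul_eq_mul]
    apply mul_nonneg (abs_nonneg _)
    rcases eq_or_ne k 0 with rfl | hk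
    · refine integral_nonneg fun y => ?_
      have := (P1_pos h0 h1 y).le
      simp only [g, zero_div, zero_mul, Real.cos_zero, mul_one, Pi.zero_apply]
      positivity
    · rw [e3]
      have hp := pos_half hF (k / 2) (div_ne_zero hk two_ne_zero)
      have g0 : Gm (1 / 2) 0 (k / 2) = ∫ y, P1 (1 / 2) y * (y ^ 0 * Real.cos (k / 2 * y)) := by
        rw [Gm_zero]; congr 1; funext y; ring
      rw [g0, Gm_two] at hp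
      linarith

/-- part NUA -/
theorem nua (hF : R_FWK) : R_NUA := by
  refine ⟨?_, ?_, nu_half hF⟩
  · exact nu_weight (by norm_num) (by norm_num) (pos_third hF)
  · exact nu_weight (by norm_num) (by norm_num) (pos_two_third hF)

end Pool.Agent.H6.RP
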