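import Pool.Agent.H6.RP.POM

/-! Project RP, part POI: Poisson formula on the strip. -/

set_option autoImplicit false

open MeasureTheory Filter Topology Set

namespace Pool.Agent.H6.RP

open Pool.Agent.H10.RP

/-- `cos (π z)` -/
noncomputable def cs (z : ℂ) : ℂ := Complex.cos (Real.pi * z)

lemma cs_diff : Differentiable ℂ cs := by unfold cs; fun_prop

lemma cs_deriv (z : ℂ) : deriv cs z = -Complex.sin (Real.pi * z) * Real.pi := by
  have h : HasDerivAt cs (-Complex.sin (Real.pi * z) * Real.pi) z := by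
    have := ((hasDerivAt_id z).const_mul (Real.pi : ℂ)).ccos
    rw [mul_one] at this
    exact this
  exact h.deriv

lemma cs_ne {θ : ℝ} (h0 : 0 < θ) (h1 : θ < 1) {z : ℂ} (hz0 : 0 ≤ z.re) (hz1 : z.re ≤ 1)
    (hz : z ≠ θ) : cs z ≠ cs θ := by
  intro h
  unfold cs at h
  rw [Complex.cos_eq_cos_iff] at h
  have hpi : (Real.pi : ℂ) ≠ 0 := by exact_mod_cast Real.pi_ne_zero
  obtain ⟨k, hk | hk⟩ := h
  · have h2 : (θ : ℂ) = 2 * k + z := by
      apply mul_left_cancel₀ hpi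
      rw [hk]; ring
    have h3 : θ = 2 * k + z.re := by
      have := congrArg Complex.re h2
      simpa using this
    have h4 : (k : ℝ) < 1 := by linarith
    have h5 : (-1 : ℝ) < k := by linarith
    have h6 : k < 1 := by exact_mod_cast h4
    have h7 : -1 < k := by exact_mod_cast h5
    have h8 : k = 0 := by omega
    rw [h8] at h2
    apply hz
    rw [h2]; simp
  · have h2 : (θ : ℂ) = 2 * k - z := by
      apply mul_left_cancel₀ hpi
      rw [hk]; ring
    have h3 : θ = 2 * k - z.re := by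
      have := congrArg Complex.re h2
      simpa using this
    have h4 : (k : ℝ) < 1 := by linarith
    have h5 : (0 : ℝ) < k := by linarith
    have h6 : k < 1 := by exact_mod_cast h4
    have h7 : 0 < k := by exact_mod_cast h5
    omega

lemma dsl_ne {θ : ℝ} (h0 : 0 < θ) (h1 : θ < 1) {z : ℂ} (hz0 : 0 ≤ z.re) (hz1 : z.re ≤ 1) :
    dslope cs θ z ≠ 0 := by
  by_cases hz : z = θ
  · rw [hz, dslope_same, cs_deriv]
    have h := sin_pos' h0 h1
    have h2 : Complex.sin (Real.pi * (θ : ℂ)) = ((Real.sin (Real.pi * θ) : ℝ) : ℂ) := by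
      push_cast; rfl
    rw [h2]
    have h3 : (Real.sin (Real.pi * θ) : ℂ) ≠ 0 := by exact_mod_cast h.ne'
    have hpi : (Real.pi : ℂ) ≠ 0 := by exact_mod_cast Real.pi_ne_zero
    exact mul_ne_zero (neg_ne_zero.2 h3) hpi
  · rw [dslope_of_ne _ hz, slope_def_field]
    exact div_ne_zero (sub_ne_zero.2 (cs_ne h0 h1 hz0 hz1 hz)) (sub_ne_zero.2 hz)

/-- the function to which Cauchy's theorem is applied -/
noncomputable def gf (H : ℂ → ℂ) (θ : ℝ) (z : ℂ) : ℂ :=
  dslope H θ z * (Real.pi * Real.sin (Real.pi * θ) / (-dslope cs θ z))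

lemma gf_eq (H : ℂ → ℂ) {θ : ℝ} {z : ℂ} (hz : z ≠ θ) :
    gf H θ z = (H z - H θ) * (Real.pi * Real.sin (Real.pi * θ) / (cs θ - cs z)) := by
  unfold gf
  rw [dslope_of_ne _ hz, dslope_of_ne _ hz, slope_def_field, slope_def_field]
  have h : z - θ ≠ 0 := sub_ne_zero.2 hz
  by_cases h2 : cs z = cs θ
  · rw [h2]; simp
  have h3 : cs z - cs θ ≠ 0 := sub_ne_zero.2 h2
  have h4 : cs θ - cs z ≠ 0 := sub_ne_zero.2 (Ne.symm h2)
  have h5 : -((cs z - cs θ) / (z - θ)) = (cs θ - cs z) / (z - θ) := by ring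
  rw [h5]
  field_simp

lemma strip_nhds {θ : ℝ} (h0 : 0 < θ) (h1 : θ < 1) : {z : ℂ | 0 ≤ z.re ∧ z.re ≤ 1} ∈ 𝓝 (θ : ℂ) := by
  have h : {z : ℂ | 0 < z.re ∧ z.re < 1} ∈ 𝓝 (θ : ℂ) := by
    apply IsOpen.mem_nhds
    · exact (isOpen_lt continuous_const Complex.continuous_re).inter
        (isOpen_lt Complex.continuous_re continuous_const)
    · simp [h0, h1]
  exact mem_of_superset h fun z hz => ⟨hz.1.le, hz.2.le⟩

lemma open_nhds {z : ℂ} (h0 : 0 < z.re) (h1 : z.re < 1) : {z : ℂ | 0 < z.re ∧ z.re < 1} ∈ 𝓝 z := by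
  apply IsOpen.mem_nhds
  · exact (isOpen_lt continuous_const Complex.continuous_re).inter
      (isOpen_lt Complex.continuous_re continuous_const)
  · exact ⟨h0, h1⟩

lemma gf_cont {H : ℂ → ℂ} {θ : ℝ} (h0 : 0 < θ) (h1 : θ < 1)
    (hd : DifferentiableOn ℂ H {z | 0 < z.re ∧ z.re < 1})
    (hc : ContinuousOn H {z | 0 ≤ z.re ∧ z.re ≤ 1}) :
    ContinuousOn (gf H θ) {z | 0 ≤ z.re ∧ z.re ≤ 1} := by
  unfold gf
  have hHθ : DifferentiableAt ℂ H θ := hd.differentiableAt (open_nhds (by simpa using h0) (by simpa using h1))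
  have hA : ContinuousOn (dslope H θ) {z | 0 ≤ z.re ∧ z.re ≤ 1} :=
    (continuousOn_dslope (strip_nhds h0 h1)).2 ⟨hc, hHθ⟩
  have hB : ContinuousOn (dslope cs θ) {z | 0 ≤ z.re ∧ z.re ≤ 1} :=
    (continuousOn_dslope (strip_nhds h0 h1)).2 ⟨cs_diff.continuous.continuousOn, cs_diff _⟩
  refine hA.mul (ContinuousOn.div continuousOn_const hB.neg fun z hz => ?_)
  exact neg_ne_zero.2 (dsl_ne h0 h1 hz.1 hz.2)

lemma gf_diff {H : ℂ → ℂ} {θ : ℝ} (h0 : 0 < θ) (h1 : θ < 1)
    (hd : DifferentiableOn ℂ H {z | 0 < z.re ∧ z.re < 1}) {z : ℂ} (hz0 : 0 < z.re) (hz1 : z.re < 1)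
    (hz : z ≠ θ) : DifferentiableAt ℂ (gf H θ) z := by
  unfold gf
  refine DifferentiableAt.mul ?_ (DifferentiableAt.div (differentiableAt_const _) ?_ ?_)
  · exact (differentiableAt_dslope_of_ne hz).2 (hd.differentiableAt (open_nhds hz0 hz1))
  · exact ((differentiableAt_dslope_of_ne hz).2 (cs_diff _)).neg
  · exact neg_ne_zero.2 (dsl_ne h0 h1 hz0.le hz1.le)

lemma cs_lower (z : ℂ) : Real.exp (Real.pi * |z.im|) - Real.exp (-(Real.pi * |z.im|)) ≤ 2 * ‖cs z‖ := by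
  have h1 : 2 * cs z = Complex.exp (Real.pi * z * Complex.I) + Complex.exp (-(Real.pi * z) * Complex.I) := by
    unfold cs
    rw [Complex.cos]
    ring
  have h2 : ‖Complex.exp (Real.pi * z * Complex.I)‖ = Real.exp (-(Real.pi * z.im)) := by
    rw [Complex.norm_exp]; congr 1; simp
  have h3 : ‖Complex.exp (-(Real.pi * z) * Complex.I)‖ = Real.exp (Real.pi * z.im) := by
    rw [Complex.norm_exp]; congr 1; simp
  have h4 : 2 * ‖cs z‖ = ‖2 * cs z‖ := by rw [norm_mul]; simp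
  rw [h4, h1]
  rcases le_total 0 z.im with h | h
  · rw [abs_of_nonneg h]
    have := norm_sub_norm_le (Complex.exp (-(Real.pi * z) * Complex.I)) (-Complex.exp (Real.pi * z * Complex.I))
    rw [norm_neg, h2, h3, sub_neg_eq_add, add_comm] at this
    rwa [add_comm (Complex.exp (Real.pi * z * Complex.I))] at this ⊢
  · rw [abs_of_nonpos h]
    have := norm_sub_norm_le (Complex.exp (Real.pi * z * Complex.I)) (-Complex.exp (-(Real.pi * z) * Complex.I))
    rw [norm_neg, h2, h3, sub_neg_eq_add] at this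
    simpa using this

lemma den_lower (θ : ℝ) {z : ℂ} (h : 3 ≤ |z.im|) : Real.exp (Real.pi * |z.im|) / 4 ≤ ‖cs θ - cs z‖ := by
  have h1 := cs_lower z
  have h2 : ‖cs θ‖ ≤ 1 := by
    have : cs θ = ((Real.cos (Real.pi * θ) : ℝ) : ℂ) := by unfold cs; push_cast; rfl
    rw [this, Complex.norm_real]
    exact Real.abs_cos_le_one _
  have h3 : ‖cs z‖ - ‖cs θ‖ ≤ ‖cs θ - cs z‖ := by
    rw [norm_sub_rev]; exact norm_sub_norm_le _ _
  have h4 : 10 ≤ Real.exp (Real.pi * |z.im|) := by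
    have h5 := Real.add_one_le_exp (Real.pi * |z.im|)
    nlinarith [Real.pi_gt_three, abs_nonneg z.im]
  have h5 : Real.exp (-(Real.pi * |z.im|)) ≤ 1 := by
    apply Real.exp_le_one_iff.2
    have := mul_nonneg Real.pi_pos.le (abs_nonneg z.im)
    linarith
  linarith

lemma gf_bound {H : ℂ → ℂ} {θ C : ℝ} (hH : ∀ z : ℂ, 0 ≤ z.re → z.re ≤ 1 →
    ‖H z‖ * (1 + |z.im|) ≤ C * Real.exp (Real.pi * |z.im|)) {z : ℂ} (h0 : 0 ≤ z.re) (h1 : z.re ≤ 1)
    (h3 : 3 ≤ |z.im|) :
    ‖gf H θ z‖ ≤ 4 * Real.pi * (C / (1 + |z.im|) + ‖H θ‖ * Real.exp (-(Real.pi * |z.im|))) := by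
  have hz : z ≠ θ := by
    intro h
    rw [h] at h3
    simp at h3
    linarith
  rw [gf_eq H hz, norm_mul, norm_div]
  have hd := den_lower θ h3
  have he : 0 < Real.exp (Real.pi * |z.im|) := Real.exp_pos _
  have h5 : ‖(Real.pi : ℂ) * (Real.sin (Real.pi * θ) : ℝ)‖ ≤ Real.pi := by
    rw [norm_mul, Complex.norm_real, Complex.norm_real, Real.norm_of_nonneg Real.pi_pos.le]
    have := Real.abs_sin_le_one (Real.pi * θ)
    calc Real.pi * ‖Real.sin (Real.pi * θ)‖ ≤ Real.pi * 1 :=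
          mul_le_mul_of_nonneg_left this Real.pi_pos.le
      _ = Real.pi := mul_one _
  have h6 : ‖(Real.pi : ℂ) * (Real.sin (Real.pi * θ) : ℝ)‖ / ‖cs θ - cs z‖ ≤
      4 * Real.pi * Real.exp (-(Real.pi * |z.im|)) := by
    rw [div_le_iff₀ (by linarith [div_pos he (by norm_num : (0:ℝ) < 4)])]
    have h7 : 4 * Real.pi * Real.exp (-(Real.pi * |z.im|)) * (Real.exp (Real.pi * |z.im|) / 4) = Real.pi := by
      rw [Real.exp_neg]; field_simp
    calc _ ≤ Real.pi := h5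
      _ = 4 * Real.pi * Real.exp (-(Real.pi * |z.im|)) * (Real.exp (Real.pi * |z.im|) / 4) := h7.symm
      _ ≤ _ := mul_le_mul_of_nonneg_left hd (by positivity)
  have h8 : ‖H z - H θ‖ ≤ C * Real.exp (Real.pi * |z.im|) / (1 + |z.im|) + ‖H θ‖ := by
    have h9 : ‖H z‖ ≤ C * Real.exp (Real.pi * |z.im|) / (1 + |z.im|) := by
      rw [le_div_iff₀ (by positivity)]
      exact hH z h0 h1
    exact (norm_sub_le _ _).trans (by linarith)
  calc ‖H z - H θ‖ * (‖(Real.pi : ℂ) * (Real.sin (Real.pi * θ) : ℝ)‖ / ‖cs θ - cs z‖)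
      ≤ (C * Real.exp (Real.pi * |z.im|) / (1 + |z.im|) + ‖H θ‖) *
        (4 * Real.pi * Real.exp (-(Real.pi * |z.im|))) := by
        apply mul_le_mul h8 h6 (by positivity)
        exact (norm_nonneg _).trans h8
    _ = 4 * Real.pi * (C / (1 + |z.im|) + ‖H θ‖ * Real.exp (-(Real.pi * |z.im|))) := by
        rw [Real.exp_neg]
        have : (1 + |z.im|) ≠ 0 := by positivity
        field_simp

lemma gf_left (H : ℂ → ℂ) {θ : ℝ} (h0 : 0 < θ) (h1 : θ < 1) (y : ℝ) :
    gf H θ (((0 : ℝ) : ℂ) + y * Complex.I) =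
      -(2 * Real.pi * ((P0 θ y : ℂ) * H (Complex.I * y) - H θ * P0 θ y)) := by
  have hz : (((0 : ℝ) : ℂ) + y * Complex.I) ≠ θ := by
    intro h
    have := congrArg Complex.re h
    simp at this
    linarith
  rw [gf_eq H hz]
  have h2 : cs (((0 : ℝ) : ℂ) + y * Complex.I) = ((Real.cosh (Real.pi * y) : ℝ) : ℂ) := by
    unfold cs
    have : (Real.pi : ℂ) * (((0 : ℝ) : ℂ) + y * Complex.I) = (Real.pi * y : ℂ) * Complex.I := by
      push_cast; ring
    rw [this, Complex.cos_mul_I]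
    push_cast; rfl
  have h3 : cs θ = ((Real.cos (Real.pi * θ) : ℝ) : ℂ) := by unfold cs; push_cast; rfl
  have h4 : (((0 : ℝ) : ℂ) + y * Complex.I) = Complex.I * y := by push_cast; ring
  rw [h2, h3, h4]
  unfold P0
  have hd := den0_pos h0 h1 y
  have hd2 : ((Real.cosh (Real.pi * y) : ℝ) : ℂ) - ((Real.cos (Real.pi * θ) : ℝ) : ℂ) ≠ 0 := by
    exact_mod_cast hd.ne'
  have hd3 : ((Real.cos (Real.pi * θ) : ℝ) : ℂ) - ((Real.cosh (Real.pi * y) : ℝ) : ℂ) ≠ 0 := by
    intro h; apply hd2; rw [← neg_sub, h, neg_zero]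
  push_cast at hd2 hd3 ⊢
  rw [← neg_sub (Complex.cosh _)]
  field_simp

lemma gf_right (H : ℂ → ℂ) {θ : ℝ} (h0 : 0 < θ) (h1 : θ < 1) (y : ℝ) :
    gf H θ (((1 : ℝ) : ℂ) + y * Complex.I) =
      2 * Real.pi * ((P1 θ y : ℂ) * H (1 + Complex.I * y) - H θ * P1 θ y) := by
  have hz : (((1 : ℝ) : ℂ) + y * Complex.I) ≠ θ := by
    intro h
    have := congrArg Complex.re h
    simp at this
    linarith
  rw [gf_eq H hz]
  have h2 : cs (((1 : ℝ) : ℂ) + y * Complex.I) = -((Real.cosh (Real.pi * y) : ℝ) : ℂ) := by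
    unfold cs
    have : (Real.pi : ℂ) * (((1 : ℝ) : ℂ) + y * Complex.I) = (Real.pi * y : ℂ) * Complex.I + Real.pi := by
      push_cast; ring
    rw [this, Complex.cos_add_pi, Complex.cos_mul_I]
    push_cast; rfl
  have h3 : cs θ = ((Real.cos (Real.pi * θ) : ℝ) : ℂ) := by unfold cs; push_cast; rfl
  have h4 : (((1 : ℝ) : ℂ) + y * Complex.I) = 1 + Complex.I * y := by push_cast; ring
  rw [h2, h3, h4]
  unfold P1
  have hd := den1_pos h0 h1 y
  have hd2 : ((Real.cosh (Real.pi * y) : ℝ) : ℂ) + ((Real.cos (Real.pi * θ) : ℝ) : ℂ) ≠ 0 := by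
    exact_mod_cast hd.ne'
  push_cast at hd2 ⊢
  rw [sub_neg_eq_add, add_comm (Complex.cos _)]
  field_simp

/-- part POI -/
theorem poi : R_POI := by
  intro θ C H h0 h1 hd hc hH hI0 hI1
  have hC : 0 ≤ C := by
    have := hH 0 (by simp) (by simp)
    simp at this
    exact (norm_nonneg _).trans this
  have hP0 : Integrable (fun y : ℝ => H θ * (P0 θ y : ℂ)) := (P0_int h0 h1).ofReal.const_mul _
  have hP1 : Integrable (fun y : ℝ => H θ * (P1 θ y : ℂ)) := (P1_int h0 h1).ofReal.const_mul _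
  -- vertical integrals
  have hA : Integrable (fun y : ℝ => gf H θ (((0 : ℝ) : ℂ) + y * Complex.I)) := by
    have : (fun y : ℝ => gf H θ (((0 : ℝ) : ℂ) + y * Complex.I)) = fun y : ℝ =>
        -(2 * Real.pi * ((P0 θ y : ℂ) * H (Complex.I * y) - H θ * P0 θ y)) := funext fun y => gf_left H h0 h1 y
    rw [this]
    exact ((hI0.sub hP0).const_mul _).neg
  have hB : Integrable (fun y : ℝ => gf H θ (((1 : ℝ) : ℂ) + y * Complex.I)) := by
    have : (fun y : ℝ => gf H θ (((1 : ℝ) : ℂ) + y * Complex.I)) = fun y : ℝ =>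
        2 * Real.pi * ((P1 θ y : ℂ) * H (1 + Complex.I * y) - H θ * P1 θ y) := funext fun y => gf_right H h0 h1 y
    rw [this]
    exact (hI1.sub hP1).const_mul _
  have hAi : ∫ y : ℝ, gf H θ (((0 : ℝ) : ℂ) + y * Complex.I) =
      -(2 * Real.pi * ((∫ y : ℝ, (P0 θ y : ℂ) * H (Complex.I * y)) - H θ * (1 - θ))) := by
    simp_rw [gf_left H h0 h1]
    rw [integral_neg, integral_const_mul, integral_sub hI0 hP0,
      integral_const_mul, integral_complex_ofReal, P0_mass h0 h1]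
    push_cast; ring
  have hBi : ∫ y : ℝ, gf H θ (((1 : ℝ) : ℂ) + y * Complex.I) =
      2 * Real.pi * ((∫ y : ℝ, (P1 θ y : ℂ) * H (1 + Complex.I * y)) - H θ * θ) := by
    simp_rw [gf_right H h0 h1]
    rw [integral_const_mul, integral_sub hI1 hP1,
      integral_const_mul, integral_complex_ofReal, P1_mass h0 h1]
  -- horizontal integrals
  let b : ℝ → ℝ := fun T => 4 * Real.pi * (C / (1 + T) + ‖H θ‖ * Real.exp (-(Real.pi * T)))
  have hb : Tendsto b atTop (𝓝 0) := by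
    have t1 : Tendsto (fun T : ℝ => C / (1 + T)) atTop (𝓝 0) :=
      tendsto_const_nhds.div_atTop (tendsto_atTop_add_const_left _ _ tendsto_id)
    have t2 : Tendsto (fun T : ℝ => Real.exp (-(Real.pi * T))) atTop (𝓝 0) :=
      Real.tendsto_exp_neg_atTop_nhds_zero.comp (tendsto_id.const_mul_atTop Real.pi_pos)
    have t3 := (t1.add (t2.const_mul ‖H θ‖)).const_mul (4 * Real.pi)
    simpa [b] using t3
  have hhor : ∀ s : ℝ → ℝ, (∀ T, |s T| = |T|) →
      Tendsto (fun T : ℝ => ∫ x : ℝ in (0 : ℝ)..1, gf H θ (x + (s T : ℝ) * Complex.I)) atTop (𝓝 0) := by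
    intro s hs
    rw [tendsto_zero_iff_norm_tendsto_zero]
    refine squeeze_zero' (Eventually.of_forall fun T => norm_nonneg _) ?_ hb
    filter_upwards [eventually_ge_atTop (3 : ℝ)] with T hT
    have hT0 : |T| = T := abs_of_nonneg (by linarith)
    have := intervalIntegral.norm_integral_le_of_norm_le_const (a := (0 : ℝ)) (b := 1)
      (f := fun x : ℝ => gf H θ (x + (s T : ℝ) * Complex.I)) (C := b T) (fun x hx => ?_)
    · simpa using this
    · rw [uIoc_of_le zero_le_one] at hx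
      have e1 : ((x : ℂ) + (s T : ℝ) * Complex.I).re = x := by simp
      have e2 : ((x : ℂ) + (s T : ℝ) * Complex.I).im = s T := by simp
      have h5 := gf_bound (θ := θ) hH (z := (x : ℂ) + (s T : ℝ) * Complex.I) (by rw [e1]; exact hx.1.le)
        (by rw [e1]; exact hx.2) (by rw [e2, hs, hT0]; exact hT)
      rw [e2, hs, hT0] at h5
      exact h5
  have hup := hhor id (fun T => rfl)
  have hdn := hhor (fun T => -T) (fun T => abs_neg T)
  -- Cauchy's theorem
  have hcau : ∀ T : ℝ, 3 ≤ T →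
      (∫ x : ℝ in (0 : ℝ)..1, gf H θ (x + ((-T : ℝ) : ℂ) * Complex.I)) -
        (∫ x : ℝ in (0 : ℝ)..1, gf H θ (x + (T : ℂ) * Complex.I)) +
      Complex.I • (∫ y : ℝ in (-T)..T, gf H θ (((1 : ℝ) : ℂ) + y * Complex.I)) -
      Complex.I • (∫ y : ℝ in (-T)..T, gf H θ (((0 : ℝ) : ℂ) + y * Complex.I)) = 0 := by
    intro T hT
    have hsub : (uIcc (0 : ℝ) 1 ×ℂ uIcc (-T) T) ⊆ {z : ℂ | 0 ≤ z.re ∧ z.re ≤ 1} := by
      intro z hz
      rw [Complex.mem_reProdIm, uIcc_of_le zero_le_one] at hz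
      exact hz.1
    have key := Complex.integral_boundary_rect_eq_zero_of_differentiable_on_off_countable (gf H θ)
      ((0 : ℂ) + (-T : ℝ) * Complex.I) ((1 : ℂ) + (T : ℝ) * Complex.I) {(θ : ℂ)} (countable_singleton _)
      (by
        have e1 : ((0 : ℂ) + (-T : ℝ) * Complex.I).re = 0 := by simp
        have e2 : ((0 : ℂ) + (-T : ℝ) * Complex.I).im = -T := by simp
        have e3 : ((1 : ℂ) + (T : ℝ) * Complex.I).re = 1 := by simp
        have e4 : ((1 : ℂ) + (T : ℝ) * Complex.I).im = T := by simp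
        rw [e1, e2, e3, e4]
        exact (gf_cont h0 h1 hd hc).mono hsub)
      (by
        intro z hz
        have e1 : ((0 : ℂ) + (-T : ℝ) * Complex.I).re = 0 := by simp
        have e2 : ((0 : ℂ) + (-T : ℝ) * Complex.I).im = -T := by simp
        have e3 : ((1 : ℂ) + (T : ℝ) * Complex.I).re = 1 := by simp
        have e4 : ((1 : ℂ) + (T : ℝ) * Complex.I).im = T := by simp
        rw [e1, e2, e3, e4, min_eq_left zero_le_one, max_eq_right zero_le_one] at hz
        obtain ⟨hz1, hz2⟩ := hz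
        rw [Complex.mem_reProdIm] at hz1
        exact gf_diff h0 h1 hd hz1.1.1 hz1.1.2 (fun h => hz2 (by simpa using h)))
    have e1 : ((0 : ℂ) + (-T : ℝ) * Complex.I).re = 0 := by simp
    have e2 : ((0 : ℂ) + (-T : ℝ) * Complex.I).im = -T := by simp
    have e3 : ((1 : ℂ) + (T : ℝ) * Complex.I).re = 1 := by simp
    have e4 : ((1 : ℂ) + (T : ℝ) * Complex.I).im = T := by simp
    rw [e1, e2, e3, e4] at key
    exact key
  have hneg : Tendsto (fun T : ℝ => -T) atTop atBot := tendsto_neg_atTop_atBot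
  have tA := (intervalIntegral_tendsto_integral hA hneg tendsto_id).const_smul Complex.I
  have tB := (intervalIntegral_tendsto_integral hB hneg tendsto_id).const_smul Complex.I
  have tot := ((hdn.sub hup).add tB).sub tA
  have hz : Tendsto (fun _ : ℝ => (0 : ℂ)) atTop (𝓝 0) := tendsto_const_nhds
  have heq : (fun _ : ℝ => (0 : ℂ)) =ᶠ[atTop] fun T : ℝ =>
      (∫ x : ℝ in (0 : ℝ)..1, gf H θ (x + ((-T : ℝ) : ℂ) * Complex.I)) -
        (∫ x : ℝ in (0 : ℝ)..1, gf H θ (x + ((id T : ℝ) : ℂ) * Complex.I)) +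
      Complex.I • (∫ y : ℝ in (-T)..(id T), gf H θ (((1 : ℝ) : ℂ) + y * Complex.I)) -
      Complex.I • (∫ y : ℝ in (-T)..(id T), gf H θ (((0 : ℝ) : ℂ) + y * Complex.I)) := by
    filter_upwards [eventually_ge_atTop (3 : ℝ)] with T hT
    exact (hcau T hT).symm
  have hfin := tendsto_nhds_unique (hz.congr' heq) tot
  rw [hAi, hBi] at hfin
  have hpi : (Real.pi : ℂ) ≠ 0 := by exact_mod_cast Real.pi_ne_zero
  have h9 : (Complex.I * (2 * Real.pi)) * (((∫ y : ℝ, (P0 θ y : ℂ) * H (Complex.I * y)) +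
      ∫ y : ℝ, (P1 θ y : ℂ) * H (1 + Complex.I * y)) - H θ) = 0 := by
    rw [smul_eq_mul, smul_eq_mul] at hfin
    linear_combination -hfin
  rcases mul_eq_zero.1 h9 with h | h
  · exfalso
    exact (mul_ne_zero Complex.I_ne_zero (mul_ne_zero two_ne_zero hpi)) h
  · rw [sub_eq_zero] at h
    exact h.symm

end Pool.Agent.H6.RP
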