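import Pool.Agent.H10.RP.StmT

/-! Project RP, part POM: masses of the Poisson kernels of the strip. -/

set_option autoImplicit false

open MeasureTheory Filter Topology Set

namespace Pool.Agent.H6.RP

open Pool.Agent.H10.RP

lemma sin_pos' {θ : ℝ} (h0 : 0 < θ) (h1 : θ < 1) : 0 < Real.sin (Real.pi * θ) := by
  apply Real.sin_pos_of_pos_of_lt_pi
  · exact mul_pos Real.pi_pos h0
  · nlinarith [Real.pi_pos]

lemma abs_cos_lt {θ : ℝ} (h0 : 0 < θ) (h1 : θ < 1) : |Real.cos (Real.pi * θ)| < 1 := by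
  have h := sin_pos' h0 h1
  have h2 := Real.sin_sq_add_cos_sq (Real.pi * θ)
  rw [abs_lt]
  constructor <;> nlinarith [h, h2]

lemma den1_pos {θ : ℝ} (h0 : 0 < θ) (h1 : θ < 1) (y : ℝ) :
    0 < Real.cosh (Real.pi * y) + Real.cos (Real.pi * θ) := by
  have h := abs_lt.1 (abs_cos_lt h0 h1)
  linarith [Real.one_le_cosh (Real.pi * y), h.1]

lemma den0_pos {θ : ℝ} (h0 : 0 < θ) (h1 : θ < 1) (y : ℝ) :
    0 < Real.cosh (Real.pi * y) - Real.cos (Real.pi * θ) := by
  have h := abs_lt.1 (abs_cos_lt h0 h1)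
  linarith [Real.one_le_cosh (Real.pi * y), h.2]

lemma P1_pos {θ : ℝ} (h0 : 0 < θ) (h1 : θ < 1) (y : ℝ) : 0 < P1 θ y := by
  unfold P1
  exact div_pos (sin_pos' h0 h1) (mul_pos two_pos (den1_pos h0 h1 y))

lemma P0_pos {θ : ℝ} (h0 : 0 < θ) (h1 : θ < 1) (y : ℝ) : 0 < P0 θ y := by
  unfold P0
  exact div_pos (sin_pos' h0 h1) (mul_pos two_pos (den0_pos h0 h1 y))

lemma P1_cont {θ : ℝ} (h0 : 0 < θ) (h1 : θ < 1) : Continuous (P1 θ) := by
  unfold P1
  refine Continuous.div (by fun_prop) (by fun_prop) fun y => ?_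
  exact (mul_pos two_pos (den1_pos h0 h1 y)).ne'

lemma P0_eq (θ y : ℝ) : P0 θ y = P1 (1 - θ) y := by
  unfold P0 P1
  have h1 : Real.pi * (1 - θ) = Real.pi - Real.pi * θ := by ring
  rw [h1, Real.sin_pi_sub, Real.cos_pi_sub]
  ring_nf

lemma P0_cont {θ : ℝ} (h0 : 0 < θ) (h1 : θ < 1) : Continuous (P0 θ) := by
  have : P0 θ = P1 (1 - θ) := funext fun y => P0_eq θ y
  rw [this]
  exact P1_cont (by linarith) (by linarith)

lemma P1_neg (θ y : ℝ) : P1 θ (-y) = P1 θ y := by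
  unfold P1
  rw [mul_neg, Real.cosh_neg]

lemma hasDeriv {θ : ℝ} (h0 : 0 < θ) (h1 : θ < 1) (y : ℝ) :
    HasDerivAt (fun y => Real.pi⁻¹ * Real.arctan
      ((Real.exp (Real.pi * y) + Real.cos (Real.pi * θ)) / Real.sin (Real.pi * θ))) (P1 θ y) y := by
  have hs := sin_pos' h0 h1
  have hd1 : HasDerivAt (fun y : ℝ => Real.exp (Real.pi * y)) (Real.exp (Real.pi * y) * Real.pi) y := by
    have := ((hasDerivAt_id y).const_mul Real.pi).exp
    simpa using this
  have hd2 := (((hd1.add_const (Real.cos (Real.pi * θ))).div_const (Real.sin (Real.pi * θ))).arctan).const_mul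
    Real.pi⁻¹
  refine hd2.congr_deriv ?_
  unfold P1
  have hd := den1_pos h0 h1 y
  rw [Real.cosh_eq] at hd ⊢
  have he := Real.exp_pos (Real.pi * y)
  have he' : Real.exp (-(Real.pi * y)) = (Real.exp (Real.pi * y))⁻¹ := Real.exp_neg _
  rw [he'] at hd ⊢
  have h2 := Real.sin_sq_add_cos_sq (Real.pi * θ)
  set E := Real.exp (Real.pi * y)
  set s := Real.sin (Real.pi * θ)
  set c := Real.cos (Real.pi * θ)
  have h3 : 0 < s ^ 2 + (E + c) ^ 2 := by positivity
  have h4 : 1 + ((E + c) / s) ^ 2 = (s ^ 2 + (E + c) ^ 2) / s ^ 2 := by field_simp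
  have h5 : 2 * ((E + E⁻¹) / 2 + c) = (s ^ 2 + (E + c) ^ 2) / E := by
    have : s ^ 2 = 1 - c ^ 2 := by linarith
    rw [this]
    field_simp
    ring
  rw [h4, h5]
  have hpi := Real.pi_pos.ne'
  field_simp

lemma tend_top {θ : ℝ} (h0 : 0 < θ) (h1 : θ < 1) :
    Tendsto (fun y => Real.pi⁻¹ * Real.arctan
      ((Real.exp (Real.pi * y) + Real.cos (Real.pi * θ)) / Real.sin (Real.pi * θ))) atTop
      (𝓝 (Real.pi⁻¹ * (Real.pi / 2))) := by
  refine Tendsto.const_mul _ ?_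
  have h := Real.tendsto_arctan_atTop
  have h2 : Tendsto (fun y => (Real.exp (Real.pi * y) + Real.cos (Real.pi * θ)) / Real.sin (Real.pi * θ))
      atTop atTop := by
    refine Tendsto.atTop_div_const (sin_pos' h0 h1) ?_
    refine tendsto_atTop_add_const_right _ _ ?_
    exact Real.tendsto_exp_atTop.comp (tendsto_id.const_mul_atTop Real.pi_pos)
  exact (h.mono_right nhdsWithin_le_nhds).comp h2

lemma tend_bot {θ : ℝ} (h0 : 0 < θ) (h1 : θ < 1) :
    Tendsto (fun y => Real.pi⁻¹ * Real.arctan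
      ((Real.exp (Real.pi * y) + Real.cos (Real.pi * θ)) / Real.sin (Real.pi * θ))) atBot
      (𝓝 (Real.pi⁻¹ * (Real.pi / 2 - Real.pi * θ))) := by
  refine Tendsto.const_mul _ ?_
  have hs := sin_pos' h0 h1
  have h2 : Tendsto (fun y => (Real.exp (Real.pi * y) + Real.cos (Real.pi * θ)) / Real.sin (Real.pi * θ))
      atBot (𝓝 ((0 + Real.cos (Real.pi * θ)) / Real.sin (Real.pi * θ))) := by
    refine Tendsto.div_const (Tendsto.add_const _ ?_) _
    exact Real.tendsto_exp_atBot.comp (tendsto_id.const_mul_atBot Real.pi_pos)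
  have h3 : Real.pi / 2 - Real.pi * θ =
      Real.arctan ((0 + Real.cos (Real.pi * θ)) / Real.sin (Real.pi * θ)) := by
    have h4 : (0 + Real.cos (Real.pi * θ)) / Real.sin (Real.pi * θ) =
        Real.tan (Real.pi / 2 - Real.pi * θ) := by
      rw [Real.tan_pi_div_two_sub, Real.tan_eq_sin_div_cos, inv_div, zero_add]
    rw [h4, Real.arctan_tan]
    · nlinarith [Real.pi_pos]
    · nlinarith [Real.pi_pos]
  rw [h3]
  exact (Real.continuous_arctan.tendsto _).comp h2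

lemma P1_int {θ : ℝ} (h0 : 0 < θ) (h1 : θ < 1) : Integrable (P1 θ) := by
  have hI : IntegrableOn (P1 θ) (Ioi 0) :=
    integrableOn_Ioi_deriv_of_nonneg' (fun x _ => hasDeriv h0 h1 x) (fun x _ => (P1_pos h0 h1 x).le)
      (tend_top h0 h1)
  have hJ : IntegrableOn (P1 θ) (Iic 0) := by
    have h2 : IntegrableOn (fun y => P1 θ (-y)) (Iic 0) := by
      have h3 := (integrableOn_Ici_iff_integrableOn_Ioi (f := P1 θ) (b := (0 : ℝ))).2 hI
      have h4 := (Measure.measurePreserving_neg (volume : Measure ℝ)).integrableOn_comp_preimage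
        (MeasurableEquiv.neg ℝ).measurableEmbedding (f := P1 θ) (s := Ici 0)
      have h5 := h4.2 h3
      have h6 : (Neg.neg ⁻¹' (Ici (0 : ℝ)) : Set ℝ) = Iic 0 := by ext x; simp
      rw [h6] at h5
      exact h5
    simpa [P1_neg] using h2
  have := hJ.union hI
  rwa [Iic_union_Ioi, integrableOn_univ] at this

lemma P1_mass {θ : ℝ} (h0 : 0 < θ) (h1 : θ < 1) : ∫ y, P1 θ y = θ := by
  rw [integral_of_hasDerivAt_of_tendsto (fun y => hasDeriv h0 h1 y) (P1_int h0 h1) (tend_bot h0 h1)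
    (tend_top h0 h1)]
  have := Real.pi_pos.ne'
  field_simp
  ring

lemma P0_int {θ : ℝ} (h0 : 0 < θ) (h1 : θ < 1) : Integrable (P0 θ) := by
  have : P0 θ = P1 (1 - θ) := funext fun y => P0_eq θ y
  rw [this]
  exact P1_int (by linarith) (by linarith)

lemma P0_mass {θ : ℝ} (h0 : 0 < θ) (h1 : θ < 1) : ∫ y, P0 θ y = 1 - θ := by
  have : P0 θ = P1 (1 - θ) := funext fun y => P0_eq θ y
  rw [this]
  exact P1_mass (by linarith) (by linarith)

/-- part POM -/
theorem pom : R_POM := fun _ h0 h1 => ⟨P1_int h0 h1, P1_mass h0 h1, P0_int h0 h1, P0_mass h0 h1⟩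

end Pool.Agent.H6.RP
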