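import Pool.Agent.H10.RP.StmT

/-! Project RP, part RZC: composition formula of Riesz potentials in the plane, complex exponents, by
analytic continuation from the real case (`S_RZ`). -/

set_option autoImplicit false

open MeasureTheory Filter Topology Set

namespace Pool.Agent.H6.RP

open Pool.Agent.H10.RP Pool.Agent.N892.BW

noncomputable def fz (x a b y : ℂ) : ℂ := ((‖y‖ : ℝ) : ℂ) ^ (a - 2) * ((‖x - y‖ : ℝ) : ℂ) ^ (b - 2)

noncomputable def Gz (x a b : ℂ) : ℂ :=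
  (Real.pi : ℂ) * (gm a * gm b / gm (a + b)) * ((‖x‖ : ℝ) : ℂ) ^ (a + b - 2)

lemma ae_ne (c : ℂ) : ∀ᵐ y : ℂ, y ≠ c := by rw [ae_iff]; simp

lemma norm_fz {x y : ℂ} (hy : y ≠ 0) (hxy : y ≠ x) (a b : ℂ) :
    ‖fz x a b y‖ = ‖y‖ ^ (a.re - 2) * ‖x - y‖ ^ (b.re - 2) := by
  have h1 : 0 < ‖y‖ := norm_pos_iff.2 hy
  have h2 : 0 < ‖x - y‖ := norm_pos_iff.2 (sub_ne_zero.2 (Ne.symm hxy))
  unfold fz
  rw [norm_mul, Complex.norm_cpow_eq_rpow_re_of_pos h1, Complex.norm_cpow_eq_rpow_re_of_pos h2]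
  simp

lemma meas_fz (x a b : ℂ) : Measurable (fz x a b) := by
  unfold fz
  fun_prop

lemma int_real (hRZ : S_RZ) {α β : ℝ} (ha : 0 < α) (hb : 0 < β) (hab : α + β < 2) {x : ℂ} (hx : x ≠ 0) :
    Integrable (fun y : ℂ => ‖y‖ ^ (α - 2) * ‖x - y‖ ^ (β - 2)) ∧
      ∫ y : ℂ, ‖y‖ ^ (α - 2) * ‖x - y‖ ^ (β - 2) = RB α β * ‖x‖ ^ (α + β - 2) := by
  have h := hRZ α β ha hb hab x hx
  have hnn : ∀ y : ℂ, 0 ≤ ‖y‖ ^ (α - 2) * ‖x - y‖ ^ (β - 2) := fun y => by positivity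
  have h2 : ∫⁻ y : ℂ, ENNReal.ofReal (‖y‖ ^ (α - 2) * ‖x - y‖ ^ (β - 2)) =
      ENNReal.ofReal (RB α β * ‖x‖ ^ (α + β - 2)) := by
    rw [← h]
    exact lintegral_congr fun y => ENNReal.ofReal_mul (by positivity)
  have hm : Measurable (fun y : ℂ => ‖y‖ ^ (α - 2) * ‖x - y‖ ^ (β - 2)) := by fun_prop
  have hRB : 0 ≤ RB α β := by
    unfold RB
    have h1 := (Real.Gamma_pos_of_pos (show 0 < α / 2 by linarith)).le
    have h2 := (Real.Gamma_pos_of_pos (show 0 < β / 2 by linarith)).le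
    have h3 := (Real.Gamma_pos_of_pos (show 0 < 1 - (α + β) / 2 by linarith)).le
    have h4 := (Real.Gamma_pos_of_pos (show 0 < 1 - α / 2 by linarith)).le
    have h5 := (Real.Gamma_pos_of_pos (show 0 < 1 - β / 2 by linarith)).le
    have h6 := (Real.Gamma_pos_of_pos (show 0 < (α + β) / 2 by linarith)).le
    have := Real.pi_pos.le
    positivity
  refine ⟨⟨hm.aestronglyMeasurable, ?_⟩, ?_⟩
  · rw [hasFiniteIntegral_iff_ofReal (ae_of_all _ hnn), h2]
    exact ENNReal.ofReal_lt_top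
  · rw [integral_eq_lintegral_of_nonneg_ae (ae_of_all _ hnn) hm.aestronglyMeasurable, h2,
      ENNReal.toReal_ofReal (by positivity)]

lemma int_fz (hRZ : S_RZ) {a b : ℂ} (ha : 0 < a.re) (hb : 0 < b.re) (hab : a.re + b.re < 2) {x : ℂ}
    (hx : x ≠ 0) : Integrable (fz x a b) := by
  refine (int_real hRZ ha hb hab hx).1.mono' (meas_fz x a b).aestronglyMeasurable ?_
  filter_upwards [ae_ne 0, ae_ne x] with y h1 h2
  rw [norm_fz h1 h2]

lemma abs_log_le {r ε : ℝ} (hr : 0 < r) (hε : 0 < ε) : |Real.log r| ≤ (r ^ ε + r ^ (-ε)) / ε := by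
  have h1 := Real.log_le_rpow_div hr.le hε
  have h2 := Real.log_le_rpow_div (inv_pos.2 hr).le hε
  rw [Real.log_inv, Real.inv_rpow hr.le, ← Real.rpow_neg hr.le] at h2
  have p1 : 0 < r ^ ε := Real.rpow_pos_of_pos hr _
  have p2 : 0 < r ^ (-ε) := Real.rpow_pos_of_pos hr _
  have e : (r ^ ε + r ^ (-ε)) / ε = r ^ ε / ε + r ^ (-ε) / ε := add_div _ _ _
  rw [e, abs_le]
  have q1 : 0 < r ^ ε / ε := div_pos p1 hε
  have q2 : 0 < r ^ (-ε) / ε := div_pos p2 hε
  constructor <;> linarith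

lemma rpow_between {r s α ε : ℝ} (hr : 0 < r) (h1 : α - ε ≤ s) (h2 : s ≤ α + ε) :
    r ^ s ≤ r ^ (α - ε) + r ^ (α + ε) := by
  have p1 : 0 < r ^ (α - ε) := Real.rpow_pos_of_pos hr _
  have p2 : 0 < r ^ (α + ε) := Real.rpow_pos_of_pos hr _
  rcases le_total r 1 with h | h
  · have := Real.rpow_le_rpow_of_exponent_ge hr h h1
    linarith
  · have := Real.rpow_le_rpow_of_exponent_le h h2
    linarith

lemma diff_F (hRZ : S_RZ) {a0 b : ℂ} (ha : 0 < a0.re) (hb : 0 < b.re) (hab : a0.re + b.re < 2) {x : ℂ}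
    (hx : x ≠ 0) : DifferentiableAt ℂ (fun a => ∫ y, fz x a b y) a0 := by
  obtain ⟨ε, hε, h1, h2⟩ : ∃ ε : ℝ, 0 < ε ∧ 2 * ε < a0.re ∧ a0.re + 2 * ε + b.re < 2 := by
    refine ⟨min (a0.re / 4) ((2 - a0.re - b.re) / 4), lt_min (by linarith) (by linarith), ?_, ?_⟩
    · have := min_le_left (a0.re / 4) ((2 - a0.re - b.re) / 4); linarith
    · have := min_le_right (a0.re / 4) ((2 - a0.re - b.re) / 4); linarith
  let F' : ℂ → ℂ → ℂ := fun a y => (((‖y‖ : ℝ) : ℂ) ^ (a - 2) * Complex.log ((‖y‖ : ℝ) : ℂ) * 1) *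
    ((‖x - y‖ : ℝ) : ℂ) ^ (b - 2)
  let bd : ℂ → ℝ := fun y => ε⁻¹ * (‖y‖ ^ (a0.re - 2 * ε - 2) * ‖x - y‖ ^ (b.re - 2)) +
    ε⁻¹ * 2 * (‖y‖ ^ (a0.re - 2) * ‖x - y‖ ^ (b.re - 2)) +
    ε⁻¹ * (‖y‖ ^ (a0.re + 2 * ε - 2) * ‖x - y‖ ^ (b.re - 2))
  have hbd : Integrable bd := by
    have i1 := (int_real hRZ (α := a0.re - 2 * ε) (β := b.re) (by linarith) hb (by linarith) hx).1
    have i2 := (int_real hRZ (α := a0.re) (β := b.re) (by linarith) hb (by linarith) hx).1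
    have i3 := (int_real hRZ (α := a0.re + 2 * ε) (β := b.re) (by linarith) hb (by linarith) hx).1
    exact ((i1.const_mul _).add (i2.const_mul _)).add (i3.const_mul _)
  have key := hasDerivAt_integral_of_dominated_loc_of_deriv_le (μ := volume) (F := fun a y => fz x a b y)
    (F' := F') (bound := bd) (x₀ := a0) (s := Metric.ball a0 ε) (Metric.ball_mem_nhds a0 hε)
    (Eventually.of_forall fun a => (meas_fz x a b).aestronglyMeasurable)
    (int_fz hRZ ha hb hab hx)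
    (by
      have : Measurable (F' a0) := by
        show Measurable fun y => (((‖y‖ : ℝ) : ℂ) ^ (a0 - 2) * Complex.log ((‖y‖ : ℝ) : ℂ) * 1) *
          ((‖x - y‖ : ℝ) : ℂ) ^ (b - 2)
        fun_prop
      exact this.aestronglyMeasurable)
    (by
      filter_upwards [ae_ne 0, ae_ne x] with y hy hyx a ha'
      have hr : 0 < ‖y‖ := norm_pos_iff.2 hy
      have hd : 0 < ‖x - y‖ := norm_pos_iff.2 (sub_ne_zero.2 (Ne.symm hyx))
      have hre : |a.re - a0.re| < ε := by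
        have h3 : ‖a - a0‖ < ε := by simpa [dist_eq_norm] using ha'
        have h4 := Complex.abs_re_le_norm (a - a0)
        rw [Complex.sub_re] at h4
        linarith
      rw [abs_lt] at hre
      show ‖(((‖y‖ : ℝ) : ℂ) ^ (a - 2) * Complex.log ((‖y‖ : ℝ) : ℂ) * 1) *
        ((‖x - y‖ : ℝ) : ℂ) ^ (b - 2)‖ ≤ _
      rw [mul_one, norm_mul, norm_mul, Complex.norm_cpow_eq_rpow_re_of_pos hr,
        Complex.norm_cpow_eq_rpow_re_of_pos hd, ← Complex.ofReal_log hr.le, Complex.norm_real,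
        Real.norm_eq_abs]
      have e1 : (a - 2 : ℂ).re = a.re - 2 := by simp
      have e2 : (b - 2 : ℂ).re = b.re - 2 := by simp
      rw [e1, e2]
      have l1 := abs_log_le hr hε
      have l2 := rpow_between (s := a.re - 2) (α := a0.re - 2) (ε := ε) hr (by linarith) (by linarith)
      have pw : 0 < ‖x - y‖ ^ (b.re - 2) := Real.rpow_pos_of_pos hd _
      have m1 : ‖y‖ ^ (a0.re - 2 - ε) * ‖y‖ ^ ε = ‖y‖ ^ (a0.re - 2) := by
        rw [← Real.rpow_add hr]; congr 1; ring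
      have m2 : ‖y‖ ^ (a0.re - 2 - ε) * ‖y‖ ^ (-ε) = ‖y‖ ^ (a0.re - 2 * ε - 2) := by
        rw [← Real.rpow_add hr]; congr 1; ring
      have m3 : ‖y‖ ^ (a0.re - 2 + ε) * ‖y‖ ^ ε = ‖y‖ ^ (a0.re + 2 * ε - 2) := by
        rw [← Real.rpow_add hr]; congr 1; ring
      have m4 : ‖y‖ ^ (a0.re - 2 + ε) * ‖y‖ ^ (-ε) = ‖y‖ ^ (a0.re - 2) := by
        rw [← Real.rpow_add hr]; congr 1; ring
      calc ‖y‖ ^ (a.re - 2) * |Real.log ‖y‖| * ‖x - y‖ ^ (b.re - 2)
          ≤ (‖y‖ ^ (a0.re - 2 - ε) + ‖y‖ ^ (a0.re - 2 + ε)) * ((‖y‖ ^ ε + ‖y‖ ^ (-ε)) / ε) *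
            ‖x - y‖ ^ (b.re - 2) := by
            apply mul_le_mul_of_nonneg_right _ pw.le
            exact mul_le_mul l2 l1 (abs_nonneg _) (by positivity)
        _ = ε⁻¹ * ((‖y‖ ^ (a0.re - 2 - ε) * ‖y‖ ^ (-ε)) * ‖x - y‖ ^ (b.re - 2)) +
            ε⁻¹ * ((‖y‖ ^ (a0.re - 2 - ε) * ‖y‖ ^ ε + ‖y‖ ^ (a0.re - 2 + ε) * ‖y‖ ^ (-ε)) *
              ‖x - y‖ ^ (b.re - 2)) +
            ε⁻¹ * ((‖y‖ ^ (a0.re - 2 + ε) * ‖y‖ ^ ε) * ‖x - y‖ ^ (b.re - 2)) := by
            rw [div_eq_mul_inv]; ring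
        _ = bd y := by
            rw [m1, m2, m3, m4]
            show _ = ε⁻¹ * (‖y‖ ^ (a0.re - 2 * ε - 2) * ‖x - y‖ ^ (b.re - 2)) +
              ε⁻¹ * 2 * (‖y‖ ^ (a0.re - 2) * ‖x - y‖ ^ (b.re - 2)) +
              ε⁻¹ * (‖y‖ ^ (a0.re + 2 * ε - 2) * ‖x - y‖ ^ (b.re - 2))
            ring)
    hbd
    (by
      filter_upwards [ae_ne 0] with y hy a _
      have hr : ((‖y‖ : ℝ) : ℂ) ≠ 0 := by
        exact_mod_cast (norm_pos_iff.2 hy).ne'
      have := (((hasDerivAt_id a).sub_const 2).const_cpow (c := ((‖y‖ : ℝ) : ℂ)) (Or.inl hr)).mul_const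
        (((‖x - y‖ : ℝ) : ℂ) ^ (b - 2))
      exact this)
  exact key.2.differentiableAt

lemma gm_diff {a : ℂ} (h0 : 0 < a.re) (h1 : a.re < 2) : DifferentiableAt ℂ gm a := by
  unfold gm
  have h2 : 0 < (a / 2).re := by simpa using h0
  have h3 : 0 < (1 - a / 2).re := by
    have : (1 - a / 2).re = 1 - a.re / 2 := by simp
    rw [this]; linarith
  have nz : ∀ s : ℂ, 0 < s.re → ∀ m : ℕ, s ≠ -m := by
    intro s hs m h
    have := congrArg Complex.re h
    simp at this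
    have h6 : (0 : ℝ) ≤ m := Nat.cast_nonneg m
    linarith
  refine DifferentiableAt.div ?_ ?_ (Complex.Gamma_ne_zero_of_re_pos h3)
  · exact DifferentiableAt.comp a (Complex.differentiableAt_Gamma _ (nz _ h2)) (by fun_prop)
  · exact DifferentiableAt.comp a (f := fun a : ℂ => 1 - a / 2)
      (Complex.differentiableAt_Gamma _ (nz _ h3)) (by fun_prop)

lemma gm_ne {a : ℂ} (h0 : 0 < a.re) (h1 : a.re < 2) : gm a ≠ 0 := by
  unfold gm
  have h2 : 0 < (a / 2).re := by simpa using h0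
  have h3 : 0 < (1 - a / 2).re := by
    have : (1 - a / 2).re = 1 - a.re / 2 := by simp
    rw [this]; linarith
  exact div_ne_zero (Complex.Gamma_ne_zero_of_re_pos h2) (Complex.Gamma_ne_zero_of_re_pos h3)

lemma diff_G {a0 b : ℂ} (ha : 0 < a0.re) (hb : 0 < b.re) (hab : a0.re + b.re < 2) {x : ℂ}
    (hx : x ≠ 0) : DifferentiableAt ℂ (fun a => Gz x a b) a0 := by
  unfold Gz
  have hre : (a0 + b).re = a0.re + b.re := Complex.add_re _ _
  have hxn : ((‖x‖ : ℝ) : ℂ) ≠ 0 := by exact_mod_cast (norm_pos_iff.2 hx).ne'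
  refine DifferentiableAt.mul (DifferentiableAt.mul (differentiableAt_const _) (DifferentiableAt.div
    (DifferentiableAt.mul (gm_diff ha (by linarith)) (differentiableAt_const _)) ?_ ?_)) ?_
  · exact DifferentiableAt.comp a0 (f := fun a : ℂ => a + b) (g := gm)
      (gm_diff (by rw [hre]; linarith) (by rw [hre]; linarith)) (by fun_prop)
  · exact gm_ne (by rw [hre]; linarith) (by rw [hre]; linarith)
  · have h : DifferentiableAt ℂ (fun a : ℂ => a + b - 2) a0 := by fun_prop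
    exact h.const_cpow (Or.inl hxn)

lemma ident (hRZ : S_RZ) {b : ℂ} (hb : 0 < b.re) (hb2 : b.re < 2) {x : ℂ} (hx : x ≠ 0)
    (h : ∀ a : ℝ, 0 < a → a + b.re < 2 → ∫ y, fz x a b y = Gz x a b) :
    ∀ a : ℂ, 0 < a.re → a.re + b.re < 2 → ∫ y, fz x a b y = Gz x a b := by
  let U : Set ℂ := {a | 0 < a.re ∧ a.re < 2 - b.re}
  have hUo : IsOpen U := (isOpen_lt continuous_const Complex.continuous_re).inter
    (isOpen_lt Complex.continuous_re continuous_const)
  have hUc : Convex ℝ U := (convex_halfSpace_re_gt 0).inter (convex_halfSpace_re_lt (2 - b.re))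
  have hF : AnalyticOnNhd ℂ (fun a => ∫ y, fz x a b y) U := by
    apply DifferentiableOn.analyticOnNhd _ hUo
    intro a ha
    exact (diff_F hRZ ha.1 hb (by have := ha.2; linarith) hx).differentiableWithinAt
  have hG : AnalyticOnNhd ℂ (fun a => Gz x a b) U := by
    apply DifferentiableOn.analyticOnNhd _ hUo
    intro a ha
    exact (diff_G ha.1 hb (by have := ha.2; linarith) hx).differentiableWithinAt
  let r0 : ℝ := (2 - b.re) / 2
  have hr0 : 0 < r0 := by simp only [r0]; linarith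
  have hr1 : r0 + b.re < 2 := by simp only [r0]; linarith
  have hmem : (r0 : ℂ) ∈ U := ⟨by simpa using hr0, by simp; linarith⟩
  have hfreq : ∃ᶠ z in 𝓝[≠] (r0 : ℂ), (fun a => ∫ y, fz x a b y) z = (fun a => Gz x a b) z := by
    have ht : Tendsto (fun r : ℝ => (r : ℂ)) (𝓝[≠] r0) (𝓝[≠] (r0 : ℂ)) := by
      apply tendsto_nhdsWithin_of_tendsto_nhds_of_eventually_within
      · exact (Complex.continuous_ofReal.tendsto r0).mono_left nhdsWithin_le_nhds
      · filter_upwards [self_mem_nhdsWithin] with r hr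
        simpa using hr
    apply ht.frequently
    apply Eventually.frequently
    have h1 : ∀ᶠ r in 𝓝 r0, 0 < r ∧ r + b.re < 2 :=
      ((isOpen_lt continuous_const continuous_id).inter
        (isOpen_lt (continuous_id.add continuous_const) continuous_const)).mem_nhds ⟨hr0, hr1⟩
    filter_upwards [h1.filter_mono nhdsWithin_le_nhds] with r hr
    exact h r hr.1 hr.2
  have key := hF.eqOn_of_preconnected_of_frequently_eq hG hUc.isPreconnected hmem hfreq
  intro a ha hab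
  exact key (x := a) ⟨ha, by linarith⟩

lemma fz_symm (x a b : ℂ) : ∫ y, fz x a b y = ∫ y, fz x b a y := by
  rw [← integral_sub_left_eq_self (fz x a b) volume x]
  congr 1
  funext y
  unfold fz
  rw [sub_sub_cancel, mul_comm]

lemma Gz_symm (x a b : ℂ) : Gz x a b = Gz x b a := by
  unfold Gz
  rw [add_comm a b, mul_comm (gm a)]

lemma real_case (hRZ : S_RZ) {α β : ℝ} (ha : 0 < α) (hb : 0 < β) (hab : α + β < 2) {x : ℂ} (hx : x ≠ 0) :
    ∫ y, fz x α β y = Gz x α β := by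
  have h := (int_real hRZ ha hb hab hx).2
  have e1 : ∀ y : ℂ, fz x α β y = ((‖y‖ ^ (α - 2) * ‖x - y‖ ^ (β - 2) : ℝ) : ℂ) := by
    intro y
    unfold fz
    rw [Complex.ofReal_mul, Complex.ofReal_cpow (norm_nonneg _), Complex.ofReal_cpow (norm_nonneg _)]
    push_cast; rfl
  simp_rw [e1]
  rw [integral_complex_ofReal, h]
  unfold RB Gz gm
  have c1 : ((α : ℂ) / 2) = ((α / 2 : ℝ) : ℂ) := by push_cast; rfl
  have c2 : ((β : ℂ) / 2) = ((β / 2 : ℝ) : ℂ) := by push_cast; rfl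
  have c3 : (1 - (α : ℂ) / 2) = ((1 - α / 2 : ℝ) : ℂ) := by push_cast; rfl
  have c4 : (1 - (β : ℂ) / 2) = ((1 - β / 2 : ℝ) : ℂ) := by push_cast; rfl
  have c5 : (((α : ℂ) + β) / 2) = (((α + β) / 2 : ℝ) : ℂ) := by push_cast; rfl
  have c6 : (1 - ((α : ℂ) + β) / 2) = ((1 - (α + β) / 2 : ℝ) : ℂ) := by push_cast; rfl
  have c7 : ((α : ℂ) + β - 2) = ((α + β - 2 : ℝ) : ℂ) := by push_cast; rfl
  rw [c6, c5, c3, c4, c1, c2, c7, Complex.Gamma_ofReal, Complex.Gamma_ofReal, Complex.Gamma_ofReal,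
    Complex.Gamma_ofReal, Complex.Gamma_ofReal, Complex.Gamma_ofReal,
    ← Complex.ofReal_cpow (norm_nonneg _)]
  have g1 := (Real.Gamma_pos_of_pos (show 0 < α / 2 by linarith)).ne'
  have g2 := (Real.Gamma_pos_of_pos (show 0 < β / 2 by linarith)).ne'
  have g3 := (Real.Gamma_pos_of_pos (show 0 < 1 - (α + β) / 2 by linarith)).ne'
  have g4 := (Real.Gamma_pos_of_pos (show 0 < 1 - α / 2 by linarith)).ne'
  have g5 := (Real.Gamma_pos_of_pos (show 0 < 1 - β / 2 by linarith)).ne'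
  have g6 := (Real.Gamma_pos_of_pos (show 0 < (α + β) / 2 by linarith)).ne'
  rw [← Complex.ofReal_div, ← Complex.ofReal_div, ← Complex.ofReal_div, ← Complex.ofReal_mul,
    ← Complex.ofReal_div, ← Complex.ofReal_mul, ← Complex.ofReal_mul]
  congr 1
  field_simp

/-- part RZC -/
theorem rzc (hRZ : S_RZ) : R_RZC := by
  intro a b ha hb hab x hx
  rw [Complex.add_re] at hab
  refine ⟨int_fz hRZ ha hb hab hx, ?_⟩
  -- first: real second exponent
  have s1 : ∀ β : ℝ, 0 < β → β < 2 → ∀ a : ℂ, 0 < a.re → a.re + β < 2 → ∫ y, fz x a β y = Gz x a β := by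
    intro β h0 h2
    have := ident hRZ (b := (β : ℂ)) (by simpa using h0) (by simpa using h2) hx
      (fun α hα hαβ => real_case hRZ hα h0 (by simpa using hαβ) hx)
    simpa using this
  have s2 := ident hRZ (b := a) ha (by linarith) hx (fun β hβ hβa => by
    rw [fz_symm, Gz_symm]
    exact s1 β hβ (by linarith) a ha (by linarith))
  have s3 := s2 b hb (by linarith)
  rw [fz_symm, Gz_symm] at s3
  exact s3

end Pool.Agent.H6.RP
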