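import Pool.Agent.H6.RP.POI

/-! Project RP, parts STA and STB: three lines inequalities with gain. -/

set_option autoImplicit false

open MeasureTheory Filter Topology Set

namespace Pool.Agent.H6.RP

open Pool.Agent.H10.RP

lemma one_add_le_exp_pi (t : ℝ) (ht : 0 ≤ t) : 1 + t ≤ Real.exp (Real.pi * t) := by
  have h1 := Real.add_one_le_exp (Real.pi * t)
  nlinarith [Real.pi_gt_three]

lemma lin_point (y : ℝ) : (Complex.I * y).re = 0 ∧ (1 + Complex.I * y).re = 1 := by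
  constructor <;> simp

/-- the general step: a holomorphic function of controlled growth, with bounds on the two lines -/
lemma step (hPOI : R_POI) (hPOM : R_POM) {θ C a B : ℝ} {H : ℂ → ℂ} (h0 : 0 < θ) (h1 : θ < 1)
    (hB : 0 ≤ B)
    (hd : DifferentiableOn ℂ H {z | 0 < z.re ∧ z.re < 1}) (hc : ContinuousOn H {z | 0 ≤ z.re ∧ z.re ≤ 1})
    (hH : ∀ z : ℂ, 0 ≤ z.re → z.re ≤ 1 → ‖H z‖ * (1 + |z.im|) ≤ C * Real.exp (Real.pi * |z.im|))
    (hl : ∀ y : ℝ, ‖H (Complex.I * y)‖ ≤ a)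
    (hr : ∫⁻ y : ℝ, ENNReal.ofReal (P1 θ y) * ‖H (1 + Complex.I * y)‖ₑ ≤ ENNReal.ofReal B) :
    ‖H θ‖ ≤ (1 - θ) * a + B := by
  obtain ⟨i1, m1, i0, m0⟩ := hPOM θ h0 h1
  have cl : Continuous (fun y : ℝ => H (Complex.I * y)) := by
    refine hc.comp_continuous (by fun_prop) fun y => ?_
    simp
  have cr : Continuous (fun y : ℝ => H (1 + Complex.I * y)) := by
    refine hc.comp_continuous (by fun_prop) fun y => ?_
    simp
  have cP1 : Continuous (fun y : ℝ => ((P1 θ y : ℝ) : ℂ)) := Complex.continuous_ofReal.comp (P1_cont h0 h1)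
  have cP0 : Continuous (fun y : ℝ => ((P0 θ y : ℝ) : ℂ)) := Complex.continuous_ofReal.comp (P0_cont h0 h1)
  have hI0 : Integrable (fun y : ℝ => (P0 θ y : ℂ) * H (Complex.I * y)) := by
    refine Integrable.mono' (i0.mul_const a) (cP0.mul cl).aestronglyMeasurable (ae_of_all _ fun y => ?_)
    rw [norm_mul, Complex.norm_real, Real.norm_of_nonneg (P0_pos h0 h1 y).le]
    exact mul_le_mul_of_nonneg_left (hl y) (P0_pos h0 h1 y).le
  have hen : ∀ y : ℝ, ‖(P1 θ y : ℂ) * H (1 + Complex.I * y)‖ₑ =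
      ENNReal.ofReal (P1 θ y) * ‖H (1 + Complex.I * y)‖ₑ := by
    intro y
    rw [enorm_mul]
    congr 1
    rw [← ofReal_norm_eq_enorm, Complex.norm_real, Real.norm_of_nonneg (P1_pos h0 h1 y).le]
  have hI1 : Integrable (fun y : ℝ => (P1 θ y : ℂ) * H (1 + Complex.I * y)) := by
    refine ⟨(cP1.mul cr).aestronglyMeasurable, ?_⟩
    unfold HasFiniteIntegral
    simp_rw [hen]
    exact lt_of_le_of_lt hr ENNReal.ofReal_lt_top
  have key := hPOI θ C H h0 h1 hd hc hH hI0 hI1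
  have b0 : ‖∫ y : ℝ, (P0 θ y : ℂ) * H (Complex.I * y)‖ ≤ (1 - θ) * a := by
    calc ‖∫ y : ℝ, (P0 θ y : ℂ) * H (Complex.I * y)‖ ≤ ∫ y : ℝ, P0 θ y * a := by
          refine norm_integral_le_of_norm_le (i0.mul_const a) (ae_of_all _ fun y => ?_)
          rw [norm_mul, Complex.norm_real, Real.norm_of_nonneg (P0_pos h0 h1 y).le]
          exact mul_le_mul_of_nonneg_left (hl y) (P0_pos h0 h1 y).le
      _ = (1 - θ) * a := by rw [integral_mul_const, m0]
  have b1 : ‖∫ y : ℝ, (P1 θ y : ℂ) * H (1 + Complex.I * y)‖ ≤ B := by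
    have h2 : ‖∫ y : ℝ, (P1 θ y : ℂ) * H (1 + Complex.I * y)‖ₑ ≤ ENNReal.ofReal B := by
      refine (enorm_integral_le_lintegral_enorm _).trans ?_
      simp_rw [hen]
      exact hr
    rw [← ofReal_norm_eq_enorm] at h2
    exact (ENNReal.ofReal_le_ofReal_iff hB).1 h2
  rw [key]
  exact (norm_add_le _ _).trans (add_le_add b0 b1)

/-- the optimal choice of the exponential factor -/
lemma choose_lam {θ A B : ℝ} (hA : 0 < A) (hB : 0 < B) : ∃ lam : ℝ,
    (1 - θ) * (A * Real.exp (-(lam * θ))) + θ * (B * Real.exp (lam * (1 - θ))) = A ^ (1 - θ) * B ^ θ := by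
  refine ⟨Real.log A - Real.log B, ?_⟩
  have e1 : A * Real.exp (-((Real.log A - Real.log B) * θ)) = A ^ (1 - θ) * B ^ θ := by
    rw [Real.rpow_def_of_pos hA, Real.rpow_def_of_pos hB, ← Real.exp_add]
    nth_rewrite 1 [← Real.exp_log hA]
    rw [← Real.exp_add]
    congr 1; ring
  have e2 : B * Real.exp ((Real.log A - Real.log B) * (1 - θ)) = A ^ (1 - θ) * B ^ θ := by
    rw [Real.rpow_def_of_pos hA, Real.rpow_def_of_pos hB, ← Real.exp_add]
    nth_rewrite 1 [← Real.exp_log hB]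
    rw [← Real.exp_add]
    congr 1; ring
  rw [e1, e2]; ring

lemma norm_exp_lam (lam θ : ℝ) (z : ℂ) : ‖Complex.exp (lam * (z - θ))‖ = Real.exp (lam * (z.re - θ)) := by
  rw [Complex.norm_exp]
  congr 1
  simp

lemma exp_lam_le (lam θ : ℝ) (h0 : 0 < θ) (h1 : θ < 1) (z : ℂ) (hz0 : 0 ≤ z.re) (hz1 : z.re ≤ 1) :
    ‖Complex.exp (lam * (z - θ))‖ ≤ Real.exp |lam| := by
  rw [norm_exp_lam]
  apply Real.exp_le_exp.2
  calc lam * (z.re - θ) ≤ |lam * (z.re - θ)| := le_abs_self _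
    _ = |lam| * |z.re - θ| := abs_mul _ _
    _ ≤ |lam| * 1 := by
        apply mul_le_mul_of_nonneg_left _ (abs_nonneg _)
        rw [abs_le]; constructor <;> linarith
    _ = |lam| := mul_one _

/-- part STB -/
theorem stb (hPOM : R_POM) (hPOI : R_POI) : R_STB := by
  intro θ M0 M1 C Φ h0 h1 hM0 hM1 hΦ hC hl hr
  obtain ⟨lam, hlam⟩ := choose_lam (θ := θ) (pow_pos hM0 6) (pow_pos hM1 6)
  let H : ℂ → ℂ := fun z => Φ z ^ 6 * Complex.exp (lam * (z - θ))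
  have hHd : Differentiable ℂ H := by
    have : Differentiable ℂ (fun z : ℂ => Complex.exp (lam * (z - θ))) := by fun_prop
    exact (hΦ.pow 6).mul this
  have hC0 : 0 ≤ C := (norm_nonneg _).trans (hC 0 (by simp) (by simp))
  have hg : ∀ z : ℂ, 0 ≤ z.re → z.re ≤ 1 → ‖H z‖ * (1 + |z.im|) ≤
      (C ^ 6 * Real.exp |lam|) * Real.exp (Real.pi * |z.im|) := by
    intro z hz0 hz1
    have h2 : ‖H z‖ ≤ C ^ 6 * Real.exp |lam| := by
      show ‖Φ z ^ 6 * Complex.exp (lam * (z - θ))‖ ≤ _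
      rw [norm_mul, norm_pow]
      exact mul_le_mul (pow_le_pow_left₀ (norm_nonneg _) (hC z hz0 hz1) 6) (exp_lam_le lam θ h0 h1 z hz0 hz1)
        (norm_nonneg _) (by positivity)
    exact mul_le_mul h2 (one_add_le_exp_pi _ (abs_nonneg _)) (by positivity) (by positivity)
  have hleft : ∀ y : ℝ, ‖H (Complex.I * y)‖ ≤ M0 ^ 6 * Real.exp (-(lam * θ)) := by
    intro y
    show ‖Φ (Complex.I * y) ^ 6 * Complex.exp (lam * (Complex.I * y - θ))‖ ≤ _
    rw [norm_mul, norm_pow, norm_exp_lam, (lin_point y).1]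
    have : lam * (0 - θ) = -(lam * θ) := by ring
    rw [this]
    exact mul_le_mul_of_nonneg_right (pow_le_pow_left₀ (norm_nonneg _) (hl y) 6) (Real.exp_pos _).le
  have hright : ∫⁻ y : ℝ, ENNReal.ofReal (P1 θ y) * ‖H (1 + Complex.I * y)‖ₑ ≤
      ENNReal.ofReal (θ * (M1 ^ 6 * Real.exp (lam * (1 - θ)))) := by
    have e : ∀ y : ℝ, ENNReal.ofReal (P1 θ y) * ‖H (1 + Complex.I * y)‖ₑ =
        ENNReal.ofReal (θ * Real.exp (lam * (1 - θ))) *
          (ENNReal.ofReal (P1 θ y / θ) * ‖Φ (1 + Complex.I * y)‖ₑ ^ 6) := by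
      intro y
      have e1 : ‖H (1 + Complex.I * y)‖ₑ = ‖Φ (1 + Complex.I * y)‖ₑ ^ 6 *
          ENNReal.ofReal (Real.exp (lam * (1 - θ))) := by
        show ‖Φ (1 + Complex.I * y) ^ 6 * Complex.exp (lam * (1 + Complex.I * y - θ))‖ₑ = _
        rw [enorm_mul, enorm_pow]
        congr 1
        rw [← ofReal_norm_eq_enorm, norm_exp_lam, (lin_point y).2]
      have e2 : P1 θ y = θ * (P1 θ y / θ) := by field_simp
      rw [e1, ENNReal.ofReal_mul h0.le]
      nth_rewrite 1 [e2]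
      rw [ENNReal.ofReal_mul h0.le]
      ring
    simp_rw [e]
    rw [lintegral_const_mul' _ _ ENNReal.ofReal_ne_top]
    calc _ ≤ ENNReal.ofReal (θ * Real.exp (lam * (1 - θ))) * ENNReal.ofReal (M1 ^ 6) := by gcongr
      _ = ENNReal.ofReal (θ * (M1 ^ 6 * Real.exp (lam * (1 - θ)))) := by
        rw [← ENNReal.ofReal_mul (by positivity)]
        congr 1; ring
  have key := step hPOI hPOM h0 h1 (by positivity) hHd.differentiableOn hHd.continuous.continuousOn hg hleft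
    hright
  have hval : ‖H θ‖ = ‖Φ θ‖ ^ 6 := by
    show ‖Φ θ ^ 6 * Complex.exp (lam * ((θ : ℂ) - θ))‖ = _
    rw [sub_self, mul_zero, Complex.exp_zero, mul_one, norm_pow]
  rw [hval, hlam] at key
  have e3 : (M0 ^ 6) ^ (1 - θ) * (M1 ^ 6) ^ θ = (M0 ^ (1 - θ) * M1 ^ θ) ^ 6 := by
    rw [mul_pow, ← Real.rpow_natCast (M0 ^ (1 - θ)), ← Real.rpow_natCast (M1 ^ θ), ← Real.rpow_natCast M0,
      ← Real.rpow_natCast M1, ← Real.rpow_mul hM0.le, ← Real.rpow_mul hM0.le, ← Real.rpow_mul hM1.le,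
      ← Real.rpow_mul hM1.le, mul_comm (1 - θ), mul_comm θ]
  rw [e3] at key
  exact le_of_pow_le_pow_left₀ (by norm_num) (by positivity) key

/-- part STA -/
theorem sta (hPOM : R_POM) (hPOI : R_POI) (hGGL : R_GGL) : R_STA := by
  intro θ M0 M1 C Φ h0 h1 hM0 hM1 hΦ hC hl hr
  obtain ⟨gd, g0, g1, gθ, Cg, hCg⟩ := hGGL
  obtain ⟨lam, hlam⟩ := choose_lam (θ := θ) (pow_pos hM0 4) (pow_pos hM1 4)
  let H : ℂ → ℂ := fun z => Φ z ^ 4 * GG z ^ 2 * Complex.exp (lam * (z - θ))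
  have hexp : Differentiable ℂ (fun z : ℂ => Complex.exp (lam * (z - θ))) := by fun_prop
  have hHd : DifferentiableOn ℂ H {z | -2 < z.re} :=
    (((hΦ.pow 4).differentiableOn).mul (gd.pow 2)).mul hexp.differentiableOn
  have hC0 : 0 ≤ C := (norm_nonneg _).trans (hC 0 (by simp) (by simp))
  have hCg0 : 0 ≤ Cg := by
    have h2 := hCg 0 (by simp) (by simp)
    simp only [Complex.zero_im, abs_zero, add_zero, mul_one, mul_zero, Real.exp_zero] at h2
    exact (by positivity : (0:ℝ) ≤ ‖GG 0‖ ^ 2).trans h2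
  have hg : ∀ z : ℂ, 0 ≤ z.re → z.re ≤ 1 → ‖H z‖ * (1 + |z.im|) ≤
      (C ^ 4 * Cg * Real.exp |lam|) * Real.exp (Real.pi * |z.im|) := by
    intro z hz0 hz1
    have h2 : ‖H z‖ = ‖Φ z‖ ^ 4 * ‖GG z‖ ^ 2 * ‖Complex.exp (lam * (z - θ))‖ := by
      show ‖Φ z ^ 4 * GG z ^ 2 * Complex.exp (lam * (z - θ))‖ = _
      rw [norm_mul, norm_mul, norm_pow, norm_pow]
    rw [h2]
    have h3 := hCg z hz0 hz1
    have h4 := exp_lam_le lam θ h0 h1 z hz0 hz1
    have h5 := pow_le_pow_left₀ (norm_nonneg _) (hC z hz0 hz1) 4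
    calc ‖Φ z‖ ^ 4 * ‖GG z‖ ^ 2 * ‖Complex.exp (lam * (z - θ))‖ * (1 + |z.im|)
        = (‖Φ z‖ ^ 4 * (‖GG z‖ ^ 2 * (1 + |z.im|))) * ‖Complex.exp (lam * (z - θ))‖ := by ring
      _ ≤ (C ^ 4 * (Cg * Real.exp (Real.pi * |z.im|))) * Real.exp |lam| := by gcongr
      _ = _ := by ring
  have hleft : ∀ y : ℝ, ‖H (Complex.I * y)‖ ≤ M0 ^ 4 * Real.exp (-(lam * θ)) := by
    intro y
    show ‖Φ (Complex.I * y) ^ 4 * GG (Complex.I * y) ^ 2 * Complex.exp (lam * (Complex.I * y - θ))‖ ≤ _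
    rw [norm_mul, norm_mul, norm_pow, norm_pow, norm_exp_lam, (lin_point y).1, g0 y, one_pow, mul_one]
    have : lam * (0 - θ) = -(lam * θ) := by ring
    rw [this]
    exact mul_le_mul_of_nonneg_right (pow_le_pow_left₀ (norm_nonneg _) (hl y) 4) (Real.exp_pos _).le
  have hright : ∫⁻ y : ℝ, ENNReal.ofReal (P1 θ y) * ‖H (1 + Complex.I * y)‖ₑ ≤
      ENNReal.ofReal (θ * (M1 ^ 4 * Real.exp (lam * (1 - θ)))) := by
    have e : ∀ y : ℝ, ENNReal.ofReal (P1 θ y) * ‖H (1 + Complex.I * y)‖ₑ =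
        ENNReal.ofReal (θ * Real.exp (lam * (1 - θ))) *
          (ENNReal.ofReal (P1 θ y / θ * (1 + y ^ 2)) * ‖Φ (1 + Complex.I * y)‖ₑ ^ 4) := by
      intro y
      have e1 : ‖H (1 + Complex.I * y)‖ₑ = ‖Φ (1 + Complex.I * y)‖ₑ ^ 4 * ENNReal.ofReal (1 + y ^ 2) *
          ENNReal.ofReal (Real.exp (lam * (1 - θ))) := by
        show ‖Φ (1 + Complex.I * y) ^ 4 * GG (1 + Complex.I * y) ^ 2 *
          Complex.exp (lam * (1 + Complex.I * y - θ))‖ₑ = _
        rw [enorm_mul, enorm_mul, enorm_pow]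
        congr 1
        · congr 1
          rw [← ofReal_norm_eq_enorm, norm_pow, g1 y]
        · rw [← ofReal_norm_eq_enorm, norm_exp_lam, (lin_point y).2]
      have hq : 0 ≤ P1 θ y / θ := div_nonneg (P1_pos h0 h1 y).le h0.le
      have e2 : P1 θ y = θ * (P1 θ y / θ) := by field_simp
      rw [e1, ENNReal.ofReal_mul h0.le, ENNReal.ofReal_mul hq]
      nth_rewrite 1 [e2]
      rw [ENNReal.ofReal_mul h0.le]
      ring
    simp_rw [e]
    rw [lintegral_const_mul' _ _ ENNReal.ofReal_ne_top]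
    calc _ ≤ ENNReal.ofReal (θ * Real.exp (lam * (1 - θ))) * ENNReal.ofReal (M1 ^ 4) := by gcongr
      _ = ENNReal.ofReal (θ * (M1 ^ 4 * Real.exp (lam * (1 - θ)))) := by
        rw [← ENNReal.ofReal_mul (by positivity)]
        congr 1; ring
  have hs1 : {z : ℂ | 0 < z.re ∧ z.re < 1} ⊆ {z | -2 < z.re} := fun z hz => by
    have := hz.1
    show -2 < z.re
    linarith
  have hs2 : {z : ℂ | 0 ≤ z.re ∧ z.re ≤ 1} ⊆ {z | -2 < z.re} := fun z hz => by
    have := hz.1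
    show -2 < z.re
    linarith
  have key := step hPOI hPOM h0 h1 (by positivity) (hHd.mono hs1) (hHd.continuousOn.mono hs2) hg hleft
    hright
  have hval : ‖H θ‖ = ‖Φ θ‖ ^ 4 * GGr θ ^ 2 := by
    show ‖Φ θ ^ 4 * GG θ ^ 2 * Complex.exp (lam * ((θ : ℂ) - θ))‖ = _
    rw [sub_self, mul_zero, Complex.exp_zero, mul_one, norm_mul, norm_pow, norm_pow, gθ θ h0.le h1.le,
      Complex.norm_real, Real.norm_eq_abs, sq_abs]
  rw [hval, hlam] at key
  have e3 : (M0 ^ 4) ^ (1 - θ) * (M1 ^ 4) ^ θ = (M0 ^ (1 - θ) * M1 ^ θ) ^ 4 := by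
    rw [mul_pow, ← Real.rpow_natCast (M0 ^ (1 - θ)), ← Real.rpow_natCast (M1 ^ θ), ← Real.rpow_natCast M0,
      ← Real.rpow_natCast M1, ← Real.rpow_mul hM0.le, ← Real.rpow_mul hM0.le, ← Real.rpow_mul hM1.le,
      ← Real.rpow_mul hM1.le, mul_comm (1 - θ), mul_comm θ]
  rw [e3] at key
  exact key

end Pool.Agent.H6.RP
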