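import Pool.Agent.H6.RP.FWK

/-! Project RP: moments of the Poisson kernel `P1 θ` against trigonometric functions, as successive
derivatives of `sinh (θ k) / sinh k`. -/

set_option autoImplicit false

open MeasureTheory Filter Topology Set

namespace Pool.Agent.H6.RP

open Pool.Agent.H10.RP

/-- exponential decay of the Poisson kernel -/
lemma P1_decay {θ : ℝ} (h0 : 0 < θ) (h1 : θ < 1) :
    ∃ A : ℝ, 0 < A ∧ ∀ y, P1 θ y ≤ A * Real.exp (-(Real.pi * |y|)) := by
  have hc := abs_cos_lt h0 h1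
  set d := 1 - |Real.cos (Real.pi * θ)| with hd
  have hd0 : 0 < d := by rw [hd]; linarith
  refine ⟨1 / d, by positivity, fun y => ?_⟩
  have hcosh : Real.exp (Real.pi * |y|) ≤ 2 * Real.cosh (Real.pi * y) := by
    rw [← Real.cosh_abs, abs_mul, abs_of_pos Real.pi_pos, Real.cosh_eq]
    have := Real.exp_pos (-(Real.pi * |y|))
    linarith
  have hden : d * Real.exp (Real.pi * |y|) ≤ 2 * (Real.cosh (Real.pi * y) + Real.cos (Real.pi * θ)) := by
    have h2 : d * Real.cosh (Real.pi * y) ≤ Real.cosh (Real.pi * y) + Real.cos (Real.pi * θ) := by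
      have h3 := Real.one_le_cosh (Real.pi * y)
      have h4 := neg_abs_le (Real.cos (Real.pi * θ))
      have h5 := abs_nonneg (Real.cos (Real.pi * θ))
      rw [hd]; nlinarith
    calc d * Real.exp (Real.pi * |y|) ≤ d * (2 * Real.cosh (Real.pi * y)) :=
          mul_le_mul_of_nonneg_left hcosh hd0.le
      _ ≤ _ := by linarith
  have hE := Real.exp_pos (Real.pi * |y|)
  unfold P1
  rw [Real.exp_neg]
  calc Real.sin (Real.pi * θ) / (2 * (Real.cosh (Real.pi * y) + Real.cos (Real.pi * θ)))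
      ≤ 1 / (d * Real.exp (Real.pi * |y|)) := by
        apply div_le_div₀ zero_le_one (Real.sin_le_one _) (by positivity) hden
    _ = 1 / d * (Real.exp (Real.pi * |y|))⁻¹ := by field_simp

lemma integrable_exp_abs {c : ℝ} (hc : 0 < c) : Integrable (fun y : ℝ => Real.exp (-(c * |y|))) := by
  have h1 : IntegrableOn (fun y : ℝ => Real.exp (-(c * |y|))) (Ioi 0) := by
    have := exp_neg_integrableOn_Ioi 0 hc
    refine this.congr_fun (fun y hy => ?_) measurableSet_Ioi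
    have hy' : (0 : ℝ) < y := hy
    simp only [abs_of_pos hy', neg_mul]
  have h2 : IntegrableOn (fun y : ℝ => Real.exp (-(c * |y|))) (Iic 0) := by
    have h3 := (integrableOn_Ici_iff_integrableOn_Ioi (b := (0 : ℝ))).2 h1
    have h4 := ((Measure.measurePreserving_neg (volume : Measure ℝ)).integrableOn_comp_preimage
      (MeasurableEquiv.neg ℝ).measurableEmbedding (f := fun y : ℝ => Real.exp (-(c * |y|))) (s := Ici 0)).2 h3
    have h6 : (Neg.neg ⁻¹' (Ici (0 : ℝ)) : Set ℝ) = Iic 0 := by ext x; simp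
    rw [h6] at h4
    simpa [Function.comp_def] using h4
  have := h2.union h1
  rwa [Iic_union_Ioi, integrableOn_univ] at this

lemma P1_pow_le {θ : ℝ} (h0 : 0 < θ) (h1 : θ < 1) (n : ℕ) :
    ∃ A : ℝ, 0 < A ∧ ∀ y, P1 θ y * |y| ^ n ≤ A * Real.exp (-(2 * |y|)) := by
  obtain ⟨A, hA, h⟩ := P1_decay h0 h1
  refine ⟨A * n.factorial, by positivity, fun y => ?_⟩
  have h2 := Real.pow_div_factorial_le_exp |y| (abs_nonneg y) n
  rw [div_le_iff₀ (by positivity)] at h2
  have h3 : Real.exp (-(Real.pi * |y|)) * Real.exp |y| ≤ Real.exp (-(2 * |y|)) := by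
    rw [← Real.exp_add]
    apply Real.exp_le_exp.2
    nlinarith [Real.pi_gt_three, abs_nonneg y]
  calc P1 θ y * |y| ^ n ≤ (A * Real.exp (-(Real.pi * |y|))) * (Real.exp |y| * n.factorial) :=
        mul_le_mul (h y) h2 (by positivity) (by positivity)
    _ = (A * n.factorial) * (Real.exp (-(Real.pi * |y|)) * Real.exp |y|) := by ring
    _ ≤ _ := mul_le_mul_of_nonneg_left h3 (by positivity)

lemma P1_pow_int {θ : ℝ} (h0 : 0 < θ) (h1 : θ < 1) (n : ℕ) : Integrable (fun y => P1 θ y * |y| ^ n) := by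
  obtain ⟨A, hA, h⟩ := P1_pow_le h0 h1 n
  refine ((integrable_exp_abs two_pos).const_mul A).mono'
    (((P1_cont h0 h1).mul (by fun_prop)).aestronglyMeasurable) (ae_of_all _ fun y => ?_)
  rw [Real.norm_of_nonneg (mul_nonneg (P1_pos h0 h1 y).le (by positivity))]
  exact h y

/-- the moments -/
noncomputable def Gm (θ : ℝ) (n : ℕ) (k : ℝ) : ℝ :=
  ∫ y, P1 θ y * (y ^ n * Real.cos (k * y + n * (Real.pi / 2)))

lemma Gm_bound {θ : ℝ} (h0 : 0 < θ) (h1 : θ < 1) (n : ℕ) (k y : ℝ) :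
    ‖P1 θ y * (y ^ n * Real.cos (k * y + n * (Real.pi / 2)))‖ ≤ P1 θ y * |y| ^ n := by
  rw [norm_mul, norm_mul, Real.norm_of_nonneg (P1_pos h0 h1 y).le, norm_pow, Real.norm_eq_abs,
    Real.norm_eq_abs]
  apply mul_le_mul_of_nonneg_left _ (P1_pos h0 h1 y).le
  calc |y| ^ n * |Real.cos (k * y + n * (Real.pi / 2))| ≤ |y| ^ n * 1 :=
        mul_le_mul_of_nonneg_left (Real.abs_cos_le_one _) (by positivity)
    _ = _ := mul_one _

lemma Gm_int {θ : ℝ} (h0 : 0 < θ) (h1 : θ < 1) (n : ℕ) (k : ℝ) :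
    Integrable (fun y => P1 θ y * (y ^ n * Real.cos (k * y + n * (Real.pi / 2)))) :=
  (P1_pow_int h0 h1 n).mono' (((P1_cont h0 h1).mul (by fun_prop)).aestronglyMeasurable)
    (ae_of_all _ fun y => Gm_bound h0 h1 n k y)

lemma Gm_deriv {θ : ℝ} (h0 : 0 < θ) (h1 : θ < 1) (n : ℕ) (k : ℝ) :
    HasDerivAt (Gm θ n) (Gm θ (n + 1) k) k := by
  have key := hasDerivAt_integral_of_dominated_loc_of_deriv_le (μ := volume)
    (F := fun k y => P1 θ y * (y ^ n * Real.cos (k * y + n * (Real.pi / 2))))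
    (F' := fun k y => P1 θ y * (y ^ (n + 1) * Real.cos (k * y + (n + 1 : ℕ) * (Real.pi / 2))))
    (bound := fun y => P1 θ y * |y| ^ (n + 1)) (x₀ := k) (s := univ) univ_mem
    (Eventually.of_forall fun k => (Gm_int h0 h1 n k).aestronglyMeasurable) (Gm_int h0 h1 n k)
    (Gm_int h0 h1 (n + 1) k).aestronglyMeasurable
    (ae_of_all _ fun y k _ => Gm_bound h0 h1 (n + 1) k y) (P1_pow_int h0 h1 (n + 1))
    (ae_of_all _ fun y k _ => by
      have h2 : HasDerivAt (fun k : ℝ => k * y + n * (Real.pi / 2)) y k := by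
        simpa using ((hasDerivAt_id k).mul_const y).add_const (n * (Real.pi / 2))
      have h3 := (h2.cos.const_mul (y ^ n)).const_mul (P1 θ y)
      refine h3.congr_deriv ?_
      have h4 : k * y + (n + 1 : ℕ) * (Real.pi / 2) = (k * y + n * (Real.pi / 2)) + Real.pi / 2 := by
        push_cast; ring
      rw [h4, Real.cos_add_pi_div_two]
      ring)
  exact key.2

section system

variable {θ : ℝ}

/-- `Gm 0 * sinh k = sinh (θ k)` -/
lemma E0 (hF : R_FWK) (h0 : 0 < θ) (h1 : θ < 1) (k : ℝ) : Gm θ 0 k * Real.sinh k = Real.sinh (θ * k) := by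
  rcases eq_or_ne k 0 with rfl | hk
  · simp
  · have h := hF θ k h0 h1 hk
    have h2 : Gm θ 0 k = Real.sinh (θ * k) / Real.sinh k := by
      rw [← h]; unfold Gm
      simp
    have hs : Real.sinh k ≠ 0 := by rw [Ne, Real.sinh_eq_zero]; exact hk
    rw [h2]; field_simp

lemma dsh (θ k : ℝ) : HasDerivAt (fun k => Real.sinh (θ * k)) (θ * Real.cosh (θ * k)) k := by
  have := ((hasDerivAt_id k).const_mul θ).sinh
  refine this.congr_deriv ?_
  simp; ring

lemma dch (θ k : ℝ) : HasDerivAt (fun k => Real.cosh (θ * k)) (θ * Real.sinh (θ * k)) k := by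
  have := ((hasDerivAt_id k).const_mul θ).cosh
  refine this.congr_deriv ?_
  simp; ring

lemma E1 (hF : R_FWK) (h0 : 0 < θ) (h1 : θ < 1) (k : ℝ) :
    Gm θ 1 k * Real.sinh k + Gm θ 0 k * Real.cosh k = θ * Real.cosh (θ * k) := by
  have hfun : (fun k => Gm θ 0 k * Real.sinh k) = fun k => Real.sinh (θ * k) := funext fun k => E0 hF h0 h1 k
  have d1 := (Gm_deriv h0 h1 0 k).mul (Real.hasDerivAt_sinh k)
  have d2 := dsh θ k
  rw [← hfun] at d2
  exact d1.unique d2

lemma E2 (hF : R_FWK) (h0 : 0 < θ) (h1 : θ < 1) (k : ℝ) :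
    Gm θ 2 k * Real.sinh k + 2 * (Gm θ 1 k * Real.cosh k) + Gm θ 0 k * Real.sinh k =
      θ ^ 2 * Real.sinh (θ * k) := by
  have hfun : (fun k => Gm θ 1 k * Real.sinh k + Gm θ 0 k * Real.cosh k) = fun k => θ * Real.cosh (θ * k) :=
    funext fun k => E1 hF h0 h1 k
  have d1 := ((Gm_deriv h0 h1 1 k).mul (Real.hasDerivAt_sinh k)).add
    ((Gm_deriv h0 h1 0 k).mul (Real.hasDerivAt_cosh k))
  have d2 := (dch θ k).const_mul θ
  rw [← hfun] at d2
  have := d1.unique d2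
  norm_num at this
  linarith

lemma E3 (hF : R_FWK) (h0 : 0 < θ) (h1 : θ < 1) (k : ℝ) :
    Gm θ 3 k * Real.sinh k + 3 * (Gm θ 2 k * Real.cosh k) + 3 * (Gm θ 1 k * Real.sinh k) +
      Gm θ 0 k * Real.cosh k = θ ^ 3 * Real.cosh (θ * k) := by
  have hfun : (fun k => Gm θ 2 k * Real.sinh k + 2 * (Gm θ 1 k * Real.cosh k) + Gm θ 0 k * Real.sinh k) =
      fun k => θ ^ 2 * Real.sinh (θ * k) := funext fun k => E2 hF h0 h1 k
  have d1 := (((Gm_deriv h0 h1 2 k).mul (Real.hasDerivAt_sinh k)).add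
    (((Gm_deriv h0 h1 1 k).mul (Real.hasDerivAt_cosh k)).const_mul 2)).add
    ((Gm_deriv h0 h1 0 k).mul (Real.hasDerivAt_sinh k))
  have d2 := (dsh θ k).const_mul (θ ^ 2)
  rw [← hfun] at d2
  have := d1.unique d2
  norm_num at this
  linarith

lemma E4 (hF : R_FWK) (h0 : 0 < θ) (h1 : θ < 1) (k : ℝ) :
    Gm θ 4 k * Real.sinh k + 4 * (Gm θ 3 k * Real.cosh k) + 6 * (Gm θ 2 k * Real.sinh k) +
      4 * (Gm θ 1 k * Real.cosh k) + Gm θ 0 k * Real.sinh k = θ ^ 4 * Real.sinh (θ * k) := by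
  have hfun : (fun k => Gm θ 3 k * Real.sinh k + 3 * (Gm θ 2 k * Real.cosh k) +
      3 * (Gm θ 1 k * Real.sinh k) + Gm θ 0 k * Real.cosh k) =
      fun k => θ ^ 3 * Real.cosh (θ * k) := funext fun k => E3 hF h0 h1 k
  have d1 := ((((Gm_deriv h0 h1 3 k).mul (Real.hasDerivAt_sinh k)).add
    (((Gm_deriv h0 h1 2 k).mul (Real.hasDerivAt_cosh k)).const_mul 3)).add
    (((Gm_deriv h0 h1 1 k).mul (Real.hasDerivAt_sinh k)).const_mul 3)).add
    ((Gm_deriv h0 h1 0 k).mul (Real.hasDerivAt_cosh k))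
  have d2 := (dch θ k).const_mul (θ ^ 3)
  rw [← hfun] at d2
  have := d1.unique d2
  norm_num at this
  linarith

lemma E5 (hF : R_FWK) (h0 : 0 < θ) (h1 : θ < 1) (k : ℝ) :
    Gm θ 5 k * Real.sinh k + 5 * (Gm θ 4 k * Real.cosh k) + 10 * (Gm θ 3 k * Real.sinh k) +
      10 * (Gm θ 2 k * Real.cosh k) + 5 * (Gm θ 1 k * Real.sinh k) + Gm θ 0 k * Real.cosh k =
      θ ^ 5 * Real.cosh (θ * k) := by
  have hfun : (fun k => Gm θ 4 k * Real.sinh k + 4 * (Gm θ 3 k * Real.cosh k) +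
      6 * (Gm θ 2 k * Real.sinh k) + 4 * (Gm θ 1 k * Real.cosh k) + Gm θ 0 k * Real.sinh k) =
      fun k => θ ^ 4 * Real.sinh (θ * k) := funext fun k => E4 hF h0 h1 k
  have d1 := (((((Gm_deriv h0 h1 4 k).mul (Real.hasDerivAt_sinh k)).add
    (((Gm_deriv h0 h1 3 k).mul (Real.hasDerivAt_cosh k)).const_mul 4)).add
    (((Gm_deriv h0 h1 2 k).mul (Real.hasDerivAt_sinh k)).const_mul 6)).add
    (((Gm_deriv h0 h1 1 k).mul (Real.hasDerivAt_cosh k)).const_mul 4)).add
    ((Gm_deriv h0 h1 0 k).mul (Real.hasDerivAt_sinh k))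
  have d2 := (dsh θ k).const_mul (θ ^ 4)
  rw [← hfun] at d2
  have := d1.unique d2
  norm_num at this
  linarith

end system

/-- integrals of `y^2 cos`, `y^4 cos` -/
lemma Gm_zero (θ k : ℝ) : Gm θ 0 k = ∫ y, P1 θ y * Real.cos (k * y) := by
  unfold Gm; simp

lemma Gm_two (θ k : ℝ) : Gm θ 2 k = -∫ y, P1 θ y * (y ^ 2 * Real.cos (k * y)) := by
  unfold Gm
  rw [← integral_neg]
  congr 1; funext y
  have : k * y + (2 : ℕ) * (Real.pi / 2) = k * y + Real.pi := by push_cast; ring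
  rw [this, Real.cos_add_pi]; ring

lemma Gm_four (θ k : ℝ) : Gm θ 4 k = ∫ y, P1 θ y * (y ^ 4 * Real.cos (k * y)) := by
  unfold Gm
  congr 1; funext y
  have : k * y + (4 : ℕ) * (Real.pi / 2) = k * y + 2 * Real.pi := by push_cast; ring
  rw [this, Real.cos_add_two_pi]

end Pool.Agent.H6.RP
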